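import Pool.Agent.TH473.Det.Sys

set_option autoImplicit false

/-!
Final estimates and the form used in the problem.
-/

namespace Pool.Agent.TH473.Det

open Finset Matrix

theorem card_bs_eq (g : ℕ) : #(bs g) = (Nat.digits 2 g).sum := by
  have h0 : ∀ g, #(bs g) = g.bitIndices.length := fun g => by
    unfold bs
    exact List.toFinset_card_of_nodup Nat.bitIndices_nodup
  rw [h0]
  induction g using Nat.strong_induction_on with
  | _ g ih =>
  rcases Nat.eq_zero_or_pos g with rfl | hpos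
  · simp
  · rcases Nat.even_or_odd' g with ⟨k, rfl | rfl⟩
    · rw [Nat.bitIndices_two_mul, List.length_map, ih k (by omega)]
      rw [Nat.digits_def' (by norm_num) hpos]
      have h1 : 2 * k % 2 = 0 := by omega
      have h2 : 2 * k / 2 = k := by omega
      rw [h1, h2]
      simp
    · rw [Nat.bitIndices_two_mul_add_one, List.length_cons, List.length_map, ih k (by omega)]
      rw [Nat.digits_def' (by norm_num) hpos]
      have h1 : (2 * k + 1) % 2 = 1 := by omega
      have h2 : (2 * k + 1) / 2 = k := by omega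
      rw [h1, h2]
      simp [add_comm]

/-- The sum of all binary digits of the numbers below `n`. -/
noncomputable def SS (n : ℕ) : ℕ := ∑ g ∈ range n, #(bs g)

theorem two_mul_SS_pow (m : ℕ) : 2 * SS (2 ^ m) = m * 2 ^ m := by
  unfold SS
  induction m with
  | zero => simp [bs_zero]
  | succ m ih =>
    have h1 : 2 ^ (m + 1) = 2 ^ m + 2 ^ m := by rw [pow_succ]; ring
    rw [h1, Finset.sum_range_add]
    have h2 : ∀ g ∈ range (2 ^ m), #(bs (2 ^ m + g)) = #(bs g) + 1 := by
      intro g hg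
      rw [Finset.mem_range] at hg
      rw [bs_add_pow hg, Finset.card_insert_of_notMem]
      intro h
      have := bs_subset_range hg h
      simp at this
    rw [Finset.sum_congr rfl h2, Finset.sum_add_distrib, Finset.sum_const, Finset.card_range]
    simp only [smul_eq_mul, mul_one]
    nlinarith

theorem SS_split (m R : ℕ) (hR : R ≤ 2 ^ m) : SS (2 ^ m + R) = SS (2 ^ m) + SS R + R := by
  unfold SS
  rw [Finset.sum_range_add]
  have h2 : ∀ g ∈ range R, #(bs (2 ^ m + g)) = #(bs g) + 1 := by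
    intro g hg
    rw [Finset.mem_range] at hg
    have hg' : g < 2 ^ m := by omega
    rw [bs_add_pow hg', Finset.card_insert_of_notMem]
    intro h
    have := bs_subset_range hg' h
    simp at this
  rw [Finset.sum_congr rfl h2, Finset.sum_add_distrib, Finset.sum_const, Finset.card_range]
  simp only [smul_eq_mul, mul_one]
  ring

theorem kl_aux (M R : ℝ) (m r : ℕ) (hM : M = m) (hR : R = r) (hm : 1 ≤ m) (hr : 1 ≤ r) :
    (3 * (M + R) / 4) ^ (m + r) ≤ M ^ m * (3 * R) ^ r := by
  have hM1 : 1 ≤ M := by rw [hM]; exact_mod_cast hm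
  have hR1 : 1 ≤ R := by rw [hR]; exact_mod_cast hr
  set p := 3 * (M + R) / (4 * M) with hp
  set s := (M + R) / (4 * R) with hs
  have hp0 : 0 ≤ p := by positivity
  have hs0 : 0 ≤ s := by positivity
  have h1 : p ≤ Real.exp (p - 1) := by have := Real.add_one_le_exp (p - 1); linarith
  have h2 : s ≤ Real.exp (s - 1) := by have := Real.add_one_le_exp (s - 1); linarith
  have h3 : p ^ m * s ^ r ≤ 1 := by
    calc p ^ m * s ^ r ≤ Real.exp (p - 1) ^ m * Real.exp (s - 1) ^ r := by gcongr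
      _ = Real.exp (m * (p - 1) + r * (s - 1)) := by
          rw [← Real.exp_nat_mul, ← Real.exp_nat_mul, ← Real.exp_add]
      _ = 1 := by
          rw [Real.exp_eq_one_iff, ← hM, ← hR, hp, hs]
          field_simp
          ring
  have h4 : 3 * (M + R) / 4 = p * M := by rw [hp]; field_simp
  have h5 : 3 * (M + R) / 4 = s * (3 * R) := by rw [hs]; field_simp
  calc (3 * (M + R) / 4) ^ (m + r) = (p * M) ^ m * (s * (3 * R)) ^ r := by
        rw [pow_add]
        nth_rewrite 1 [h4]
        rw [h5]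
    _ = (p ^ m * s ^ r) * (M ^ m * (3 * R) ^ r) := by rw [mul_pow, mul_pow]; ring
    _ ≤ 1 * (M ^ m * (3 * R) ^ r) := by gcongr
    _ = _ := one_mul _

theorem SS_lower (n : ℕ) : (3 * (n : ℝ) / 4) ^ n ≤ 4 ^ SS n := by
  induction n using Nat.strong_induction_on with
  | _ n ih =>
  rcases Nat.eq_zero_or_pos n with rfl | hpos
  · simp [SS]
  · obtain ⟨m, R, hR, hn⟩ : ∃ m R, R < 2 ^ m ∧ n = 2 ^ m + R := by
      refine ⟨Nat.log 2 n, n - 2 ^ Nat.log 2 n, ?_, ?_⟩
      · have := Nat.lt_pow_succ_log_self (b := 2) (by norm_num) n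
        rw [pow_succ] at this
        omega
      · have := Nat.pow_log_le_self 2 (x := n) (by omega)
        omega
    have h1 := SS_split m R hR.le
    have h2 := two_mul_SS_pow m
    have h3 : (4 : ℝ) ^ SS (2 ^ m) = (2 ^ m : ℝ) ^ (2 ^ m) := by
      rw [← pow_mul, ← h2, show (4 : ℝ) = 2 ^ 2 by norm_num, ← pow_mul]
    have h4 : (1 : ℝ) ≤ 2 ^ m := one_le_pow₀ (by norm_num)
    have h8 : (4 : ℝ) ^ (SS (2 ^ m) + SS R + R) = (2 ^ m : ℝ) ^ (2 ^ m) * 4 ^ SS R * 4 ^ R := by
      rw [pow_add, pow_add, h3]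
    rw [hn, h1, h8]
    rcases Nat.eq_zero_or_pos R with rfl | hRpos
    · simp only [SS, Finset.range_zero, Finset.sum_empty, pow_zero, mul_one, add_zero]
      push_cast
      gcongr
      linarith
    · have h5 := ih R (by have : 0 < 2 ^ m := by positivity
                          omega)
      have h6 := kl_aux (2 ^ m) R (2 ^ m) R (by push_cast; rfl) rfl Nat.one_le_two_pow hRpos
      push_cast
      refine h6.trans ?_
      have h7 : (3 * (R : ℝ)) ^ R = (3 * (R : ℝ) / 4) ^ R * 4 ^ R := by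
        rw [← mul_pow]; congr 1; ring
      rw [h7]
      calc ((2 : ℝ) ^ m) ^ (2 ^ m) * ((3 * (R : ℝ) / 4) ^ R * 4 ^ R)
          ≤ ((2 : ℝ) ^ m) ^ (2 ^ m) * (4 ^ SS R * 4 ^ R) := by gcongr
        _ = _ := by ring

theorem SS_le (n m : ℕ) (h : n ≤ 2 ^ m) : SS n ≤ n * m := by
  unfold SS
  calc ∑ g ∈ range n, #(bs g) ≤ ∑ g ∈ range n, m := by
        refine Finset.sum_le_sum fun g hg => ?_
        rw [Finset.mem_range] at hg
        have := Finset.card_le_card (bs_subset_range (hg.trans_le h))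
        rwa [Finset.card_range] at this
    _ = n * m := by simp

theorem SS_add_le (N k m : ℕ) (h : N + k ≤ 2 ^ m) : SS (N + k) ≤ SS N + k * m := by
  unfold SS
  rw [Finset.sum_range_add]
  gcongr
  calc ∑ g ∈ range k, #(bs (N + g)) ≤ ∑ g ∈ range k, m := by
        refine Finset.sum_le_sum fun g hg => ?_
        rw [Finset.mem_range] at hg
        have := Finset.card_le_card (bs_subset_range (show N + g < 2 ^ m by omega))
        rwa [Finset.card_range] at this
    _ = k * m := by simp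

theorem two_pow_le_exp (k : ℕ) : (2 : ℝ) ^ k ≤ Real.exp k := by
  have h1 := Real.add_one_le_exp (1 : ℝ)
  calc (2 : ℝ) ^ k ≤ Real.exp 1 ^ k := by gcongr; linarith
    _ = Real.exp k := by rw [← Real.exp_nat_mul]; simp

theorem sq_le_pow (m : ℕ) (h : 8 ≤ m) : (m : ℝ) ^ 2 ≤ 4 * (3 / 2) ^ m := by
  induction m, h using Nat.le_induction with
  | base => norm_num
  | succ m hm ih =>
    have h1 : (8 : ℝ) ≤ m := by exact_mod_cast hm
    rw [pow_succ (3 / 2 : ℝ)]
    push_cast
    nlinarith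

theorem pow_bound (m : ℕ) (h : 8 ≤ m) : 9 * m + 6 ≤ 2 ^ (m - 1) := by
  induction m, h using Nat.le_induction with
  | base => norm_num
  | succ m hm ih =>
    have h1 : 2 ^ (m + 1 - 1) = 2 * 2 ^ (m - 1) := by
      obtain ⟨k, rfl⟩ : ∃ k, m = k + 1 := ⟨m - 1, by omega⟩
      simp only [Nat.add_sub_cancel, pow_succ]
      ring
    omega

/-- The main theorem on determinants of zero-one matrices. -/
theorem hasDet_main (n : ℕ) (hn : 1 ≤ n) (q : ℤ)
    (hq : |(q : ℝ)| * Real.exp (1000 * (n : ℝ) ^ (3 / 5 : ℝ)) ≤ 2 ^ SS n / 2 ^ n) :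
    HasDet n q := by
  have hn1 : (1 : ℝ) ≤ n := by exact_mod_cast hn
  have hpow1 : (1 : ℝ) ≤ (n : ℝ) ^ (3 / 5 : ℝ) := Real.one_le_rpow hn1 (by norm_num)
  rcases Nat.lt_or_ge n 128 with hs | hl
  · -- small orders
    have h1 : SS n ≤ n * 7 := SS_le n 7 (by omega)
    have h2 : (2 : ℝ) ^ SS n ≤ 2 ^ 999 := by
      apply pow_le_pow_right₀ (by norm_num)
      omega
    have h3 : (2 : ℝ) ^ 1000 ≤ Real.exp (1000 * (n : ℝ) ^ (3 / 5 : ℝ)) := by
      refine (two_pow_le_exp 1000).trans (Real.exp_le_exp.2 ?_)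
      push_cast
      linarith
    have h4 : (2 : ℝ) ^ SS n / 2 ^ n ≤ 2 ^ 999 :=
      (div_le_self (by positivity) (one_le_pow₀ (by norm_num))).trans h2
    have h5 : |(q : ℝ)| * 2 ^ 1000 ≤ 2 ^ 999 :=
      (mul_le_mul_of_nonneg_left h3 (abs_nonneg _)).trans (hq.trans h4)
    have h6 : |(q : ℝ)| < 1 := by
      by_contra hcon
      push Not at hcon
      have h7 : (2 : ℝ) ^ 1000 = 2 * 2 ^ 999 := pow_succ' 2 999
      have h8 : (0 : ℝ) < 2 ^ 999 := by positivity
      rw [h7] at h5
      clear h7 h4 h2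
      generalize (2 : ℝ) ^ 999 = T at h5 h8
      have h9 : 1 * (2 * T) ≤ |(q : ℝ)| * (2 * T) :=
        mul_le_mul_of_nonneg_right hcon (by linarith)
      linarith
    have h7 : q = 0 := by
      have : |q| < 1 := by exact_mod_cast h6
      exact Int.abs_lt_one_iff.1 this
    rw [h7]
    have h8 : HasDet 1 0 := ⟨Unit, inferInstance, inferInstance, by simp, 0, by simp, by simp⟩
    have h9 := h8.pad (n - 1)
    rwa [Nat.add_sub_cancel' hn] at h9
  · set m := Nat.log 2 n + 1 with hm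
    have hlog : 7 ≤ Nat.log 2 n := by
      calc 7 = Nat.log 2 (2 ^ 7) := (Nat.log_pow (by norm_num) 7).symm
        _ ≤ Nat.log 2 n := Nat.log_mono_right (by norm_num; exact hl)
    have h1 : n < 2 ^ m := Nat.lt_pow_succ_log_self (by norm_num) n
    have h2 : 2 ^ (m - 1) ≤ n := by
      rw [hm, Nat.add_sub_cancel]
      exact Nat.pow_log_le_self 2 (by omega)
    have h3 := pow_bound m (by omega)
    obtain ⟨N, hN⟩ : ∃ N, n = N + (9 * m + 4) := ⟨n - (9 * m + 4), by omega⟩
    obtain ⟨W, hW1, hW2, hW3⟩ := main_block N m (by omega) (by omega)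
    have h4 : n = N + 9 * m + 4 := by omega
    have h5 := SS_add_le N (9 * m + 4) m (by omega)
    rw [← hN] at h5
    rw [h4]
    apply hW3
    -- the estimate
    have h6 : (2 : ℝ) ^ SS n ≤ W * 2 ^ n *
        (Real.exp (16 * (3 / 2) ^ m) * Real.exp (((9 * m + 4) * m : ℕ))) := by
      have hW0 : (0 : ℝ) ≤ W := by exact_mod_cast (by omega : (0 : ℤ) ≤ W)
      calc (2 : ℝ) ^ SS n ≤ 2 ^ (SS N + (9 * m + 4) * m) :=
            pow_le_pow_right₀ (by norm_num) h5
        _ = 2 ^ SS N * 2 ^ ((9 * m + 4) * m) := pow_add _ _ _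
        _ ≤ (W * 2 ^ N * Real.exp (16 * (3 / 2) ^ m)) * Real.exp (((9 * m + 4) * m : ℕ)) := by
            have := two_pow_le_exp ((9 * m + 4) * m)
            have h7 : (2 : ℝ) ^ SS N ≤ W * 2 ^ N * Real.exp (16 * (3 / 2) ^ m) := hW2
            gcongr
        _ ≤ (W * 2 ^ n * Real.exp (16 * (3 / 2) ^ m)) * Real.exp (((9 * m + 4) * m : ℕ)) := by
            gcongr
            · norm_num
            · omega
        _ = _ := by ring
    have h7 : Real.exp (16 * (3 / 2) ^ m) * Real.exp (((9 * m + 4) * m : ℕ)) ≤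
        Real.exp (1000 * (n : ℝ) ^ (3 / 5 : ℝ)) := by
      rw [← Real.exp_add, Real.exp_le_exp]
      have e1 : (3 / 2 : ℝ) ≤ 2 ^ (3 / 5 : ℝ) := by
        have e2 : ((3 / 2 : ℝ)) = ((3 / 2 : ℝ) ^ (5 : ℝ)) ^ (1 / 5 : ℝ) := by
          rw [← Real.rpow_mul (by norm_num)]; norm_num
        have e3 : (2 : ℝ) ^ (3 / 5 : ℝ) = ((2 : ℝ) ^ (3 : ℝ)) ^ (1 / 5 : ℝ) := by
          rw [← Real.rpow_mul (by norm_num)]; norm_num
        rw [e2, e3]
        apply Real.rpow_le_rpow (by positivity) _ (by norm_num)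
        norm_num
      have e4 : (3 / 2 : ℝ) ^ m ≤ 2 * (n : ℝ) ^ (3 / 5 : ℝ) := by
        have e5 : (2 : ℝ) ^ m ≤ 2 * n := by
          have : 2 ^ m ≤ 2 * n := by
            have e6 : 2 ^ m = 2 * 2 ^ (m - 1) := by
              obtain ⟨k, hk⟩ : ∃ k, m = k + 1 := ⟨m - 1, by omega⟩
              rw [hk, Nat.add_sub_cancel, pow_succ]; ring
            omega
          exact_mod_cast this
        calc (3 / 2 : ℝ) ^ m ≤ ((2 : ℝ) ^ (3 / 5 : ℝ)) ^ m := by gcongr
          _ = ((2 : ℝ) ^ m) ^ (3 / 5 : ℝ) := by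
              rw [← Real.rpow_natCast, ← Real.rpow_mul (by norm_num), ← Real.rpow_natCast 2 m,
                ← Real.rpow_mul (by norm_num)]
              congr 1
              ring
          _ ≤ (2 * (n : ℝ)) ^ (3 / 5 : ℝ) := by
              apply Real.rpow_le_rpow (by positivity) e5 (by norm_num)
          _ = (2 : ℝ) ^ (3 / 5 : ℝ) * (n : ℝ) ^ (3 / 5 : ℝ) :=
              Real.mul_rpow (by norm_num) (by linarith)
          _ ≤ 2 * (n : ℝ) ^ (3 / 5 : ℝ) := by
              have e7 : (2 : ℝ) ^ (3 / 5 : ℝ) ≤ 2 ^ (1 : ℝ) :=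
                Real.rpow_le_rpow_of_exponent_le (by norm_num) (by norm_num)
              rw [Real.rpow_one] at e7
              gcongr
      have e8 := sq_le_pow m (by omega)
      have e9 : (1 : ℝ) ≤ m := by exact_mod_cast (by omega : 1 ≤ m)
      push_cast
      nlinarith
    have h8 : |(q : ℝ)| ≤ W := by
      have e1 : (0 : ℝ) < Real.exp (1000 * (n : ℝ) ^ (3 / 5 : ℝ)) := Real.exp_pos _
      have e2 : (0 : ℝ) < 2 ^ n := by positivity
      have hW0 : (0 : ℝ) ≤ W := by exact_mod_cast (by omega : (0 : ℤ) ≤ W)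
      rw [le_div_iff₀ e2] at hq
      have e3 : |(q : ℝ)| * Real.exp (1000 * (n : ℝ) ^ (3 / 5 : ℝ)) * 2 ^ n ≤
          W * 2 ^ n * Real.exp (1000 * (n : ℝ) ^ (3 / 5 : ℝ)) := by
        refine hq.trans (h6.trans ?_)
        gcongr
      by_contra hcon
      push Not at hcon
      have e4 : (0 : ℝ) < Real.exp (1000 * (n : ℝ) ^ (3 / 5 : ℝ)) * 2 ^ n := by positivity
      nlinarith
    exact_mod_cast h8

/-- Matrices of order `n` as subsets of the cube. -/
theorem cube_form (n : ℕ) (hn : 3 ≤ n) (v : ℕ) (h : HasDet n v) :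
    ∃ r : Fin (n + 1) → Fin n → ℤ, Function.Injective r ∧ (∀ i j, r i j = 0 ∨ r i j = 1) ∧
      |(Matrix.of fun i => (Fin.cons 1 (r i) : Fin (n + 1) → ℤ)).det| = v := by
  rcases Nat.eq_zero_or_pos v with rfl | hv
  · -- a singular example
    have hcard : Fintype.card (Fin (n + 1)) ≤ Fintype.card (Fin (n - 1) → Bool) := by
      simp only [Fintype.card_fin, Fintype.card_fun, Fintype.card_bool]
      clear h
      obtain ⟨k, rfl⟩ : ∃ k, n = k + 3 := ⟨n - 3, by omega⟩
      have : k + 3 - 1 = k + 2 := by omega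
      rw [this]
      have := Nat.lt_two_pow_self (n := k)
      rw [pow_add]
      omega
    obtain ⟨f⟩ := Function.Embedding.nonempty_of_card_le hcard
    refine ⟨fun i j => if hj : (j : ℕ) < n - 1 then (if f i ⟨j, hj⟩ then 1 else 0) else 0,
      ?_, ?_, ?_⟩
    · intro i i' hii
      apply f.injective
      ext j
      have h1 := congrFun hii ⟨j, by omega⟩
      simp only [Fin.is_lt, ↓reduceDIte, Fin.eta] at h1
      rcases hfi : f i j <;> rcases hfi' : f i' j <;> simp_all
    · intro i j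
      dsimp only
      split_ifs <;> simp
    · have h2 : (Matrix.of fun i => (Fin.cons 1 (fun j : Fin n =>
          if hj : (j : ℕ) < n - 1 then (if f i ⟨j, hj⟩ then (1 : ℤ) else 0) else 0) :
          Fin (n + 1) → ℤ)).det = 0 := by
        apply Matrix.det_eq_zero_of_column_eq_zero (Fin.succ (⟨n - 1, by omega⟩ : Fin n))
        intro i
        rw [Matrix.of_apply, Fin.cons_succ]
        exact dif_neg (lt_irrefl _)
      rw [h2]
      simp
  · obtain ⟨ι, _, _, hcard, E, hE, hdet⟩ := h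
    have e : ι ≃ Fin n := Fintype.equivFinOfCardEq hcard
    let A : Matrix (Fin n) (Fin n) ℤ := Matrix.reindex e e E
    have hA : A.det = v := by rw [Matrix.det_reindex_self, hdet]
    let r : Fin (n + 1) → Fin n → ℤ := Fin.cons 0 (fun i => A i)
    have hM : (Matrix.of fun i => (Fin.cons 1 (r i) : Fin (n + 1) → ℤ)).det = v := by
      rw [Matrix.det_succ_row_zero, Fin.sum_univ_succ]
      have h1 : ∀ j : Fin n, (Matrix.of fun i => (Fin.cons 1 (r i) : Fin (n + 1) → ℤ)) 0 j.succ
          = 0 := by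
        intro j
        simp [r]
      have h2 : ((Matrix.of fun i => (Fin.cons 1 (r i) : Fin (n + 1) → ℤ)).submatrix Fin.succ
          (Fin.succAbove 0)) = A := by
        ext i j
        simp [r]
      simp only [h1, h2, mul_zero, zero_mul, Finset.sum_const_zero, add_zero]
      simp [hA]
    refine ⟨r, ?_, ?_, ?_⟩
    · intro i j hij
      by_contra hne
      have h3 := Matrix.det_zero_of_row_eq (M := Matrix.of fun i =>
        (Fin.cons 1 (r i) : Fin (n + 1) → ℤ)) hne (by
          ext k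
          simp [hij])
      rw [hM] at h3
      have : v = 0 := by exact_mod_cast h3
      omega
    · intro i j
      refine Fin.cases ?_ (fun i => ?_) i
      · left; simp [r]
      · simp only [r, Fin.cons_succ]
        exact hE _ _
    · rw [hM]
      simp

theorem main (n : ℕ) (hn : 3 ≤ n) (v : ℕ)
    (hv : (v : ℝ) * Real.exp (1000 * (n : ℝ) ^ (3 / 5 : ℝ)) ≤
      max ((2 : ℝ) ^ (∑ j ∈ range n, (Nat.digits 2 j).sum) / 2 ^ n)
        ((3 * (n : ℝ) / 16) ^ ((n : ℝ) / 2))) :
    ∃ r : Fin (n + 1) → Fin n → ℤ, Function.Injective r ∧ (∀ i j, r i j = 0 ∨ r i j = 1) ∧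
      |(Matrix.of fun i => (Fin.cons 1 (r i) : Fin (n + 1) → ℤ)).det| = v := by
  apply cube_form n hn
  apply hasDet_main n (by omega)
  have h1 : SS n = ∑ j ∈ range n, (Nat.digits 2 j).sum := by
    unfold SS
    exact Finset.sum_congr rfl fun g _ => card_bs_eq g
  have h2 : (3 * (n : ℝ) / 16) ^ ((n : ℝ) / 2) ≤ 2 ^ SS n / 2 ^ n := by
    have h3 := SS_lower n
    have h4 : ((3 * (n : ℝ) / 16) ^ ((n : ℝ) / 2)) ^ 2 ≤ ((2 : ℝ) ^ SS n / 2 ^ n) ^ 2 := by
      rw [← Real.rpow_natCast, ← Real.rpow_mul (by positivity)]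
      have h5 : (n : ℝ) / 2 * ((2 : ℕ) : ℝ) = n := by push_cast; ring
      have h7 : ∀ a : ℕ, ((2 : ℝ) ^ a) ^ 2 = 4 ^ a := by
        intro a
        rw [← pow_mul, mul_comm a 2, pow_mul]
        congr 1
        norm_num
      rw [h5, Real.rpow_natCast, div_pow (2 ^ SS n : ℝ), h7, h7, le_div_iff₀ (by positivity),
        ← mul_pow]
      have h6 : 3 * (n : ℝ) / 16 * 4 = 3 * n / 4 := by ring
      rw [h6]
      exact h3
    exact (pow_le_pow_iff_left₀ (by positivity) (by positivity) (by norm_num)).1 h4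
  have h3 : |(((v : ℤ) : ℤ) : ℝ)| = v := by simp
  rw [h3]
  refine hv.trans ?_
  rw [← h1]
  exact max_le le_rfl h2

end Pool.Agent.TH473.Det
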