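import Mathlib

set_option autoImplicit false

/-!
Binary digits as finite sets, parity characters and AND functions.
-/

namespace Pool.Agent.TH473.Det

open Finset

/-- The natural number with set of binary digits `s`. -/
def vl (s : Finset ℕ) : ℕ := ∑ i ∈ s, 2 ^ i

/-- The set of binary digits of `n`. -/
def bs (n : ℕ) : Finset ℕ := n.bitIndices.toFinset

theorem vl_bs (n : ℕ) : vl (bs n) = n := Finset.sum_toFinset_bitIndices_two_pow n

theorem bs_vl (s : Finset ℕ) : bs (vl s) = s := Finset.toFinset_bitIndices_sum_two_pow s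

theorem bs_inj {a b : ℕ} (h : bs a = bs b) : a = b := by
  rw [← vl_bs a, h, vl_bs]

theorem vl_range (t : ℕ) : vl (range t) + 1 = 2 ^ t := by
  unfold vl
  induction t with
  | zero => simp
  | succ t ih => rw [Finset.sum_range_succ, pow_succ]; omega

theorem vl_mono {s t : Finset ℕ} (h : s ⊆ t) : vl s ≤ vl t :=
  Finset.sum_le_sum_of_subset h

theorem vl_union {s t : Finset ℕ} (h : Disjoint s t) : vl (s ∪ t) = vl s + vl t :=
  Finset.sum_union h

theorem vl_insert {s : Finset ℕ} {t : ℕ} (h : t ∉ s) : vl (insert t s) = 2 ^ t + vl s :=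
  Finset.sum_insert h

theorem vl_sdiff {s A : Finset ℕ} (h : A ⊆ s) : vl (s \ A) + vl A = vl s :=
  Finset.sum_sdiff h

theorem vl_empty : vl ∅ = 0 := rfl

theorem bs_zero : bs 0 = ∅ := by simp [bs]

theorem vl_pos {s : Finset ℕ} (h : s.Nonempty) : 0 < vl s := by
  obtain ⟨i, hi⟩ := h
  exact lt_of_lt_of_le (by positivity : 0 < 2 ^ i)
    (Finset.single_le_sum (f := fun i => 2 ^ i) (fun _ _ => Nat.zero_le _) hi)

theorem two_pow_le_vl {s : Finset ℕ} {i : ℕ} (h : i ∈ s) : 2 ^ i ≤ vl s :=
  Finset.single_le_sum (f := fun i => 2 ^ i) (fun _ _ => Nat.zero_le _) h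

theorem bs_subset_range {m n : ℕ} (h : n < 2 ^ m) : bs n ⊆ range m := by
  intro i hi
  rw [Finset.mem_range]
  have h1 := two_pow_le_vl hi
  rw [vl_bs] at h1
  by_contra h2
  have : 2 ^ m ≤ 2 ^ i := Nat.pow_le_pow_right (by norm_num) (by omega)
  omega

theorem vl_lt_of_subset {s : Finset ℕ} {m : ℕ} (h : s ⊆ range m) : vl s < 2 ^ m := by
  have := vl_mono h
  have := vl_range m
  omega

/-- Every positive number splits off its lowest digit. -/
theorem exists_lo (g : ℕ) (hg : 1 ≤ g) :
    ∃ (t : ℕ) (B : Finset ℕ), (∀ i ∈ B, t < i) ∧ g = 2 ^ t + vl B := by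
  have hne : (bs g).Nonempty := by
    rw [Finset.nonempty_iff_ne_empty]
    intro h
    have := vl_bs g
    rw [h, vl_empty] at this
    omega
  refine ⟨(bs g).min' hne, (bs g).erase ((bs g).min' hne), ?_, ?_⟩
  · intro i hi
    exact Finset.min'_lt_of_mem_erase_min' _ hne hi
  · rw [← vl_insert (Finset.notMem_erase _ _), Finset.insert_erase (Finset.min'_mem _ _), vl_bs]

theorem bs_split {t : ℕ} {B : Finset ℕ} (hB : ∀ i ∈ B, t < i) :
    bs (2 ^ t + vl B) = insert t B := by
  have h : t ∉ B := fun h => lt_irrefl _ (hB t h)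
  rw [← vl_insert h, bs_vl]

theorem disj_range {t : ℕ} {B : Finset ℕ} (hB : ∀ i ∈ B, t < i) : Disjoint (range t) B := by
  rw [Finset.disjoint_left]
  intro i hi hi'
  have := hB i hi'
  rw [Finset.mem_range] at hi
  omega

theorem bs_pred {t : ℕ} {B : Finset ℕ} (hB : ∀ i ∈ B, t < i) :
    bs (2 ^ t + vl B - 1) = range t ∪ B := by
  have h1 := vl_range t
  have h2 : 2 ^ t + vl B - 1 = vl (range t ∪ B) := by
    rw [vl_union (disj_range hB)]; omega
  rw [h2, bs_vl]

theorem bs_add_pow {m g : ℕ} (h : g < 2 ^ m) : bs (2 ^ m + g) = insert m (bs g) := by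
  have h1 : m ∉ bs g := by
    intro h2
    have := bs_subset_range h h2
    simp at this
  calc bs (2 ^ m + g) = bs (2 ^ m + vl (bs g)) := by rw [vl_bs]
    _ = bs (vl (insert m (bs g))) := by rw [vl_insert h1]
    _ = insert m (bs g) := bs_vl _

/-- Parity character. -/
def chi (s a : Finset ℕ) : ℤ := ∏ i ∈ s, (if i ∈ a then -1 else 1)

theorem chi_sq (s a : Finset ℕ) : chi s a = 1 ∨ chi s a = -1 := by
  unfold chi
  induction s using Finset.induction_on with
  | empty => simp
  | insert i s hi ih =>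
    rw [Finset.prod_insert hi]
    rcases ih with h | h <;> rw [h] <;> split_ifs <;> simp

theorem chi_mul_self (s a : Finset ℕ) : chi s a * chi s a = 1 := by
  rcases chi_sq s a with h | h <;> rw [h] <;> norm_num

/-- Parity function. -/
def pp (s a : Finset ℕ) : ℤ := if chi s a = 1 then 0 else 1

theorem chi_eq (s a : Finset ℕ) : chi s a = 1 - 2 * pp s a := by
  unfold pp
  rcases chi_sq s a with h | h <;> simp [h]

theorem pp_mem (s a : Finset ℕ) : pp s a = 0 ∨ pp s a = 1 := by
  unfold pp; split_ifs <;> simp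

theorem pp_empty (a : Finset ℕ) : pp ∅ a = 0 := by simp [pp, chi]

/-- AND function. -/
def an (s a : Finset ℕ) : ℤ := if s ⊆ a then 1 else 0

theorem an_empty (a : Finset ℕ) : an ∅ a = 1 := by simp [an]

theorem an_mul (s t a : Finset ℕ) : an s a * an t a = an (s ∪ t) a := by
  unfold an
  by_cases h1 : s ⊆ a <;> by_cases h2 : t ⊆ a <;> simp [h1, h2, Finset.union_subset_iff]

theorem an_prod (s a : Finset ℕ) : an s a = ∏ i ∈ s, (if i ∈ a then 1 else 0) := by
  unfold an
  rw [Finset.prod_ite_zero]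
  simp [Finset.subset_iff]

theorem chi_union {s t : Finset ℕ} (h : Disjoint s t) (a : Finset ℕ) :
    chi (s ∪ t) a = chi s a * chi t a := Finset.prod_union h

theorem chi_sdiff {s A : Finset ℕ} (h : A ⊆ s) (a : Finset ℕ) :
    chi (s \ A) a = chi s a * chi A a := by
  have h1 : chi (s \ A) a * chi A a = chi s a := Finset.prod_sdiff h
  calc chi (s \ A) a = chi (s \ A) a * (chi A a * chi A a) := by rw [chi_mul_self, mul_one]
    _ = chi s a * chi A a := by rw [← mul_assoc, h1]

/-- Expansion of the parity function in AND functions. -/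
theorem pp_eq_sum (s a : Finset ℕ) :
    pp s a = ∑ C ∈ s.powerset.erase ∅, (-2) ^ (#C - 1) * an C a := by
  have h1 : chi s a = ∑ C ∈ s.powerset, (-2) ^ #C * an C a := by
    have : chi s a = ∏ i ∈ s, ((-2) * (if i ∈ a then 1 else 0) + 1) := by
      unfold chi
      refine Finset.prod_congr rfl fun i _ => ?_
      split_ifs <;> norm_num
    rw [this, Finset.prod_add_one]
    refine Finset.sum_congr rfl fun C _ => ?_
    rw [Finset.prod_mul_distrib, Finset.prod_const, an_prod]
  rw [← Finset.add_sum_erase _ _ (Finset.empty_mem_powerset s), chi_eq] at h1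
  simp only [Finset.card_empty, pow_zero, an_empty, one_mul] at h1
  have h2 : ∑ C ∈ s.powerset.erase ∅, (-2 : ℤ) ^ #C * an C a =
      (-2) * ∑ C ∈ s.powerset.erase ∅, (-2) ^ (#C - 1) * an C a := by
    rw [Finset.mul_sum]
    refine Finset.sum_congr rfl fun C hC => ?_
    have hC1 : 0 < #C := Finset.card_pos.2 (Finset.nonempty_iff_ne_empty.2 (Finset.mem_erase.1 hC).1)
    obtain ⟨k, hk⟩ : ∃ k, #C = k + 1 := ⟨#C - 1, by omega⟩
    rw [hk, Nat.add_sub_cancel, pow_succ]
    ring
  rw [h2] at h1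
  linarith

/-- The basic alternating sum. -/
theorem alt_sum {s B : Finset ℕ} (hB : B ⊆ s) (a : Finset ℕ) :
    ∑ A ∈ B.powerset, (-1) ^ #A * chi (s \ A) a = 2 ^ #B * (chi s a * an B a) := by
  have h1 : ∀ A ∈ B.powerset, (-1) ^ #A * chi (s \ A) a =
      chi s a * ∏ i ∈ A, (-(if i ∈ a then -1 else 1)) := by
    intro A hA
    rw [chi_sdiff ((Finset.mem_powerset.1 hA).trans hB), Finset.prod_neg]
    unfold chi
    ring
  rw [Finset.sum_congr rfl h1, ← Finset.mul_sum, ← Finset.prod_add_one]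
  have h2 : ∏ i ∈ B, (-(if i ∈ a then (-1 : ℤ) else 1) + 1) = 2 ^ #B * an B a := by
    rw [an_prod, ← Finset.prod_const, ← Finset.prod_mul_distrib]
    refine Finset.prod_congr rfl fun i _ => ?_
    split_ifs <;> norm_num
  rw [h2]
  ring

end Pool.Agent.TH473.Det
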