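import Pool.Agent.TH473.Det.Bits

set_option autoImplicit false

/-!
The block matrix: a unimodular matrix of order `2 ^ m`, all rows but `m + 1` of them zero-one.
-/

namespace Pool.Agent.TH473.Det

open Finset

/-- Lowest digit. -/
noncomputable def lo (g : ℕ) : ℕ := sInf {i | i ∈ bs g}

/-- The digits other than the lowest. -/
noncomputable def hi (g : ℕ) : Finset ℕ := (bs g).erase (lo g)

theorem lo_eq {t : ℕ} {B : Finset ℕ} (hB : ∀ i ∈ B, t < i) : lo (2 ^ t + vl B) = t := by
  unfold lo
  rw [bs_split hB]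
  refine IsLeast.csInf_eq ⟨by simp, fun i hi => ?_⟩
  simp only [Finset.mem_insert, Set.mem_ofPred_eq] at hi
  rcases hi with rfl | hi
  · exact le_rfl
  · exact (hB i hi).le

theorem hi_eq {t : ℕ} {B : Finset ℕ} (hB : ∀ i ∈ B, t < i) : hi (2 ^ t + vl B) = B := by
  unfold hi
  rw [lo_eq hB, bs_split hB, Finset.erase_insert]
  exact fun h => lt_irrefl _ (hB t h)

open Classical in
/-- The row functions of the block. -/
noncomputable def row (g : ℕ) (a : Finset ℕ) : ℤ :=
  if g = 0 then 1
  else if hi g = ∅ then pp (bs g) a - pp (bs (g - 1)) a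
  else if hi g ⊆ a ∧ chi (range (lo g + 1)) a = 1 then 1 - pp (bs (g - 1)) a
  else pp (bs (g - 1)) a

theorem row_zero (a : Finset ℕ) : row 0 a = 1 := by simp [row]

theorem row_single (t : ℕ) (a : Finset ℕ) : row (2 ^ t) a = pp {t} a - pp (range t) a := by
  have hB : ∀ i ∈ (∅ : Finset ℕ), t < i := by simp
  have h1 := hi_eq hB
  have h2 := bs_split hB
  have h3 := bs_pred hB
  rw [vl_empty, add_zero] at h1 h2 h3
  have h0 : 2 ^ t ≠ 0 := by positivity
  unfold row
  rw [if_neg h0, if_pos h1, h2, h3]
  simp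

theorem row_split {t : ℕ} {B : Finset ℕ} (hB : ∀ i ∈ B, t < i) (hne : B ≠ ∅) (a : Finset ℕ) :
    row (2 ^ t + vl B) a = pp (range t ∪ B) a +
      (if B ⊆ a ∧ chi (range (t + 1)) a = 1 then chi (range t ∪ B) a else 0) := by
  have h0 : 2 ^ t + vl B ≠ 0 := by positivity
  unfold row
  rw [if_neg h0, hi_eq hB, if_neg hne, lo_eq hB, bs_pred hB]
  split_ifs with h
  · rw [chi_eq]; ring
  · ring

theorem row_zero_one {g : ℕ} (h : hi g ≠ ∅) (a : Finset ℕ) : row g a = 0 ∨ row g a = 1 := by
  unfold row
  split_ifs with h1 h2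
  · exact Or.inr rfl
  · rcases pp_mem (bs (g - 1)) a with h | h <;> simp [h]
  · exact pp_mem _ _

theorem row_small (g : ℕ) (a : Finset ℕ) : row g a = 0 ∨ row g a = 1 ∨ row g a = -1 := by
  unfold row
  split_ifs with h0 h1 h2
  · exact Or.inr (Or.inl rfl)
  · rcases pp_mem (bs g) a with h | h <;> rcases pp_mem (bs (g - 1)) a with h' | h' <;>
      simp [h, h']
  · rcases pp_mem (bs (g - 1)) a with h | h <;> simp [h]
  · rcases pp_mem (bs (g - 1)) a with h | h <;> simp [h]

theorem chi_an (B a : Finset ℕ) : chi B a * an B a = (-1) ^ #B * an B a := by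
  unfold an
  split_ifs with h
  · unfold chi
    rw [Finset.prod_congr rfl (g := fun _ => (-1 : ℤ)) (fun i hi => by rw [if_pos (h hi)])]
    simp
  · simp

theorem neg_one_sq_pow (k : ℕ) : ((-1 : ℤ)) ^ k * (-1) ^ k = 1 := by
  rw [← mul_pow]; norm_num

/-- First key identity. -/
theorem key1 {t : ℕ} {B : Finset ℕ} (hB : ∀ i ∈ B, t < i) (hne : B ≠ ∅) (a : Finset ℕ) :
    (-1) ^ #B * (row (2 ^ t + vl B) a - pp (range t ∪ B) a) =
      an B a * (1 - pp {t} a - pp (range t) a) := by
  rw [row_split hB hne, add_sub_cancel_left, chi_union (disj_range hB)]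
  have h1 : chi (range (t + 1)) a = chi {t} a * chi (range t) a := by
    rw [Finset.range_add_one, Finset.insert_eq, chi_union]
    simp
  rw [h1]
  by_cases hBa : B ⊆ a
  · have h2 : an B a = 1 := by simp [an, hBa]
    have h3 := chi_an B a
    rw [h2, mul_one, mul_one] at h3
    rw [h2, h3]
    have h4 := chi_eq {t} a
    have h5 := chi_eq (range t) a
    have h6 := neg_one_sq_pow #B
    rcases chi_sq {t} a with h7 | h7 <;> rcases chi_sq (range t) a with h8 | h8
    · have h9 : pp {t} a = 0 := by omega
      have h10 : pp (range t) a = 0 := by omega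
      rw [if_pos ⟨hBa, by rw [h7, h8]; norm_num⟩, h8, h9, h10]
      linear_combination h6
    · have h9 : pp {t} a = 0 := by omega
      have h10 : pp (range t) a = 1 := by omega
      rw [if_neg (by rw [h7, h8]; norm_num), h9, h10]
      ring
    · have h9 : pp {t} a = 1 := by omega
      have h10 : pp (range t) a = 0 := by omega
      rw [if_neg (by rw [h7, h8]; norm_num), h9, h10]
      ring
    · have h9 : pp {t} a = 1 := by omega
      have h10 : pp (range t) a = 1 := by omega
      rw [if_pos ⟨hBa, by rw [h7, h8]; norm_num⟩, h8, h9, h10]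
      linear_combination -h6
  · rw [if_neg (fun h => hBa h.1)]
    simp [an, hBa]

/-- Second key identity. -/
theorem key2 {t : ℕ} {B : Finset ℕ} (hB : ∀ i ∈ B, t < i) (hne : B ≠ ∅) (a : Finset ℕ) :
    ∑ A ∈ B.powerset, (-1) ^ #A * (pp (insert t B \ A) a + pp ((range t ∪ B) \ A) a) =
      2 ^ #B * (pp (range t ∪ B) a - row (2 ^ t + vl B) a) := by
  have ht : t ∉ B := fun h => lt_irrefl _ (hB t h)
  have h1 := alt_sum (Finset.subset_insert t B) a
  have h2 := alt_sum (Finset.subset_union_right (s₁ := range t) (s₂ := B)) a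
  have h3 : ∑ A ∈ B.powerset, (-1 : ℤ) ^ #A = 0 :=
    Finset.sum_powerset_neg_one_pow_card_of_nonempty (Finset.nonempty_iff_ne_empty.2 hne)
  have h4 : ∑ A ∈ B.powerset, (-1 : ℤ) ^ #A * chi (insert t B \ A) a +
      ∑ A ∈ B.powerset, (-1 : ℤ) ^ #A * chi ((range t ∪ B) \ A) a =
      2 * ∑ A ∈ B.powerset, (-1 : ℤ) ^ #A - 2 * ∑ A ∈ B.powerset,
        (-1) ^ #A * (pp (insert t B \ A) a + pp ((range t ∪ B) \ A) a) := by
    rw [← Finset.sum_add_distrib, Finset.mul_sum, Finset.mul_sum, ← Finset.sum_sub_distrib]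
    refine Finset.sum_congr rfl fun A _ => ?_
    rw [chi_eq, chi_eq]
    ring
  rw [h1, h2, h3] at h4
  have h5 : chi (insert t B) a = chi {t} a * chi B a := by
    rw [Finset.insert_eq, chi_union (by simpa using ht)]
  have h6 : chi (range t ∪ B) a = chi (range t) a * chi B a := chi_union (disj_range hB) a
  have h7 := key1 hB hne a
  have h8 := chi_an B a
  have h9 := neg_one_sq_pow #B
  have h10 : chi (insert t B) a * an B a + chi (range t ∪ B) a * an B a =
      2 * (row (2 ^ t + vl B) a - pp (range t ∪ B) a) := by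
    rw [h5, h6]
    have h11 := chi_eq {t} a
    have h12 := chi_eq (range t) a
    calc chi {t} a * chi B a * an B a + chi (range t) a * chi B a * an B a
        = (chi {t} a + chi (range t) a) * (chi B a * an B a) := by ring
      _ = 2 * ((-1) ^ #B * (an B a * (1 - pp {t} a - pp (range t) a))) := by
          rw [h8, h11, h12]; ring
      _ = 2 * (((-1) ^ #B * (-1) ^ #B) * (row (2 ^ t + vl B) a - pp (range t ∪ B) a)) := by
          rw [← h7]; ring
      _ = _ := by rw [h9, one_mul]
  have h13 : (2 : ℤ) ^ #B * (chi (insert t B) a * an B a) +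
      2 ^ #B * (chi (range t ∪ B) a * an B a) =
      2 ^ #B * (2 * (row (2 ^ t + vl B) a - pp (range t ∪ B) a)) := by
    rw [← mul_add, h10]
  rw [h13] at h4
  linarith

/-- The row lattice of the block. -/
noncomputable def Lam (N : ℕ) : Submodule ℤ (Fin N → ℤ) :=
  Submodule.span ℤ (Set.range fun g : Fin N => fun a : Fin N => row g (bs a))

theorem row_mem {N g : ℕ} (hg : g < N) :
    (fun a : Fin N => row g (bs a)) ∈ Lam N :=
  Submodule.subset_span ⟨⟨g, hg⟩, rfl⟩

theorem pp_mem_Lam {N : ℕ} {s : Finset ℕ}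
    (h : ∀ C ⊆ s, (fun a : Fin N => an C (bs a)) ∈ Lam N) :
    (fun a : Fin N => pp s (bs a)) ∈ Lam N := by
  have h1 : (fun a : Fin N => pp s (bs a)) =
      ∑ C ∈ s.powerset.erase ∅, ((-2) ^ (#C - 1) : ℤ) • fun a : Fin N => an C (bs a) := by
    ext a
    rw [pp_eq_sum]
    simp
  rw [h1]
  exact Submodule.sum_mem _ fun C hC => Submodule.smul_mem _ _
    (h C (Finset.mem_powerset.1 (Finset.mem_erase.1 hC).2))

theorem anpp_mem_Lam {N : ℕ} {s B : Finset ℕ}
    (h : ∀ C ⊆ s, (fun a : Fin N => an (B ∪ C) (bs a)) ∈ Lam N) :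
    (fun a : Fin N => an B (bs a) * pp s (bs a)) ∈ Lam N := by
  have h1 : (fun a : Fin N => an B (bs a) * pp s (bs a)) =
      ∑ C ∈ s.powerset.erase ∅, ((-2) ^ (#C - 1) : ℤ) •
        fun a : Fin N => an (B ∪ C) (bs a) := by
    ext a
    rw [pp_eq_sum, Finset.mul_sum]
    simp only [Finset.sum_apply, Pi.smul_apply, smul_eq_mul]
    refine Finset.sum_congr rfl fun C _ => ?_
    rw [← an_mul]
    ring
  rw [h1]
  exact Submodule.sum_mem _ fun C hC => Submodule.smul_mem _ _
    (h C (Finset.mem_powerset.1 (Finset.mem_erase.1 hC).2))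

theorem pp_single (t : ℕ) (a : Finset ℕ) : pp {t} a = an {t} a := by
  unfold pp an chi
  by_cases h : t ∈ a <;> simp [h]

/-- All AND functions lie in the row lattice. -/
theorem an_mem (N g : ℕ) (hg : g < N) :
    (fun a : Fin N => an (bs g) (bs a)) ∈ Lam N := by
  induction g using Nat.strong_induction_on with
  | _ g ih =>
  have ih' : ∀ C : Finset ℕ, vl C < g → (fun a : Fin N => an C (bs a)) ∈ Lam N := by
    intro C hC
    have := ih (vl C) hC (by omega)
    rwa [bs_vl] at this
  rcases Nat.eq_zero_or_pos g with rfl | hpos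
  · have h1 := row_mem hg
    have h2 : (fun a : Fin N => an (bs 0) (bs a)) =
        fun a : Fin N => row 0 (bs a) := by
      ext a; rw [row_zero, bs_zero, an_empty]
    rw [h2]; exact h1
  · obtain ⟨t, B, hB, rfl⟩ := exists_lo g hpos
    have hvr := vl_range t
    by_cases hne : B = ∅
    · subst hne
      rw [vl_empty, add_zero] at hg ih' ⊢
      have h1 := bs_split hB
      rw [vl_empty, add_zero] at h1
      rw [h1]
      have h2 : (fun a : Fin N => an (insert t ∅) (bs a)) =
          (fun a : Fin N => row (2 ^ t) (bs a)) +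
          fun a : Fin N => pp (range t) (bs a) := by
        ext a
        have : insert t (∅ : Finset ℕ) = {t} := rfl
        rw [Pi.add_apply, row_single, this, pp_single]
        ring
      rw [h2]
      refine Submodule.add_mem _ (row_mem hg) (pp_mem_Lam fun C hC => ih' C ?_)
      have := vl_mono hC
      omega
    · rw [bs_split hB]
      have h2 : (fun a : Fin N => an (insert t B) (bs a)) =
          (fun a : Fin N => an B (bs a)) -
          (fun a : Fin N => an B (bs a) * pp (range t) (bs a)) -
          ((-1) ^ #B : ℤ) • ((fun a : Fin N => row (2 ^ t + vl B) (bs a)) -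
            fun a : Fin N => pp (range t ∪ B) (bs a)) := by
        ext a
        have h3 := key1 hB hne (bs a)
        have h4 : an (insert t B) (bs a) = an B (bs a) * pp {t} (bs a) := by
          rw [pp_single, an_mul, Finset.insert_eq, Finset.union_comm]
        simp only [Pi.sub_apply, Pi.smul_apply, smul_eq_mul]
        rw [h3, h4]
        ring
      rw [h2]
      refine Submodule.sub_mem _ (Submodule.sub_mem _ (ih' B ?_) (anpp_mem_Lam fun C hC => ih' _ ?_))
        (Submodule.smul_mem _ _ (Submodule.sub_mem _ (row_mem hg)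
          (pp_mem_Lam fun C hC => ih' C ?_)))
      · have : 0 < 2 ^ t := by positivity
        omega
      · have h5 := vl_mono hC
        rw [vl_union]
        · omega
        · exact (Finset.disjoint_of_subset_left hC (disj_range hB)).symm
      · have h5 := vl_mono hC
        rw [vl_union (disj_range hB)] at h5
        omega

/-- The row lattice is everything. -/
theorem Lam_top (N : ℕ) : Lam N = ⊤ := by
  have h1 : ∀ b : Fin N, (Pi.single b 1 : Fin N → ℤ) ∈ Lam N := by
    intro b
    obtain ⟨m, hm⟩ : ∃ m, N ≤ 2 ^ m := ⟨N, Nat.lt_two_pow_self.le⟩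
    have h2 : (Pi.single b 1 : Fin N → ℤ) =
        ∑ C ∈ (range m \ bs b).powerset, ((-1) ^ #C : ℤ) •
          fun a : Fin N => an (bs b ∪ C) (bs a) := by
      ext a
      simp only [Finset.sum_apply, Pi.smul_apply, smul_eq_mul]
      have h3 : ∑ C ∈ (range m \ bs b).powerset, (-1 : ℤ) ^ #C * an (bs b ∪ C) (bs a) =
          an (bs b) (bs a) * ∏ i ∈ range m \ bs b, ((-1) * (if i ∈ bs (a : ℕ) then 1 else 0) + 1) := by
        rw [Finset.prod_add_one, Finset.mul_sum]
        refine Finset.sum_congr rfl fun C _ => ?_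
        rw [Finset.prod_mul_distrib, Finset.prod_const, ← an_prod, ← an_mul]
        ring
      rw [h3]
      by_cases hab : a = b
      · subst hab
        rw [Pi.single_eq_same, Finset.prod_eq_one]
        · simp [an]
        · intro i hi
          rw [if_neg (Finset.mem_sdiff.1 hi).2]
          norm_num
      · rw [Pi.single_eq_of_ne hab]
        by_cases hsub : bs b ⊆ bs a
        · have h4 : ∃ i ∈ bs (a : ℕ), i ∉ bs (b : ℕ) := by
            by_contra hcon
            push Not at hcon
            exact hab (Fin.ext (bs_inj (Finset.Subset.antisymm hcon hsub)))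
          obtain ⟨i, hi1, hi2⟩ := h4
          rw [Finset.prod_eq_zero (i := i)]
          · simp
          · exact Finset.mem_sdiff.2 ⟨bs_subset_range (a.2.trans_le hm) hi1, hi2⟩
          · rw [if_pos hi1]; norm_num
        · simp [an, hsub]
    rw [h2]
    refine Submodule.sum_mem _ fun C hC => Submodule.smul_mem _ _ ?_
    by_cases hlt : vl (bs b ∪ C) < N
    · have h6 := an_mem N (vl (bs b ∪ C)) hlt
      rwa [bs_vl] at h6
    · have h7 : (fun a : Fin N => an (bs b ∪ C) (bs a)) = 0 := by
        ext a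
        unfold an
        rw [if_neg]
        · rfl
        · intro hsub
          have := vl_mono hsub
          rw [vl_bs] at this
          have := a.2
          omega
      rw [h7]
      exact Submodule.zero_mem _
  rw [eq_top_iff]
  intro f _
  have h2 : f = ∑ b : Fin N, f b • (Pi.single b 1 : Fin N → ℤ) := by
    ext a
    simp [Finset.sum_apply, Pi.single_apply]
  rw [h2]
  exact Submodule.sum_mem _ fun b _ => Submodule.smul_mem _ _ (h1 b)

/-- The block matrix. -/
noncomputable def Rm (N : ℕ) : Matrix (Fin N) (Fin N) ℤ :=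
  Matrix.of fun g a => row g (bs a)

theorem Rm_unit (N : ℕ) : IsUnit (Rm N).det := by
  have h1 : ∀ b : Fin N, ∃ c : Fin N → ℤ,
      ∑ g, c g • (fun a : Fin N => row g (bs a)) = Pi.single b 1 := by
    intro b
    have h2 : (Pi.single b 1 : Fin N → ℤ) ∈ Lam N := by rw [Lam_top]; trivial
    unfold Lam at h2
    rwa [Submodule.mem_span_range_iff_exists_fun] at h2
  choose c hc using h1
  have h3 : (Matrix.of fun b g => c b g) * Rm N = 1 := by
    ext b a
    have h4 := congrFun (hc b) a
    simp only [Finset.sum_apply, Pi.smul_apply, smul_eq_mul] at h4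
    rw [Matrix.mul_apply, Matrix.one_apply]
    simp only [Matrix.of_apply, Rm]
    rw [h4, Pi.single_apply]
    simp [eq_comm]
  exact Matrix.isUnit_det_of_left_inverse h3

end Pool.Agent.TH473.Det
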