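import Pool.Agent.TH473.Det.Block

set_option autoImplicit false

/-!
Growth of the functionals of the block.
-/

namespace Pool.Agent.TH473.Det

open Finset

/-- The relations satisfied by the functionals of a block. -/
structure Rel (N : ℕ) (w : Finset ℕ → ℤ) : Prop where
  w0 : w ∅ = 0
  w1 : w {0} = 1
  ws : ∀ t, 1 ≤ t → 2 ^ t < N → w {t} = w (range t)
  wB : ∀ (t : ℕ) (B : Finset ℕ), (∀ i ∈ B, t < i) → B ≠ ∅ → 2 ^ t + vl B < N →
    ∑ A ∈ B.powerset, (-1) ^ #A * (w (insert t B \ A) + w ((range t ∪ B) \ A)) =
      2 ^ #B * w (range t ∪ B)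

theorem growth {N : ℕ} {w : Finset ℕ → ℤ} (H : Rel N w) (g : ℕ) (hg1 : 1 ≤ g) (hg : g < N) :
    1 ≤ w (bs g) ∧ w (bs (g - 1)) ≤ w (bs g) ∧
      (2 ≤ #(bs g) → 2 ^ (#(bs g) - 2) * w (bs (g - 1)) ≤ w (bs g)) ∧
      (2 ≤ g → w (bs g) ≤ 2 ^ #(bs g) * w (bs (g - 1))) ∧
      (4 ≤ #(bs g) → (2 ^ (#(bs g) - 1) - 5) * w (bs (g - 1)) ≤ w (bs g)) := by
  induction g using Nat.strong_induction_on with
  | _ g ih =>
  have mono : ∀ h h' : ℕ, h' ≤ h → h < g → w (bs h') ≤ w (bs h) := by
    intro h
    induction h with
    | zero =>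
      intro h' hh' _
      have : h' = 0 := by omega
      rw [this]
    | succ h ihh =>
      intro h' hh' hlt
      rcases Nat.lt_or_ge h' (h + 1) with h1 | h1
      · exact (ihh h' (by omega) (by omega)).trans (ih (h + 1) hlt (by omega) (by omega)).2.1
      · have : h' = h + 1 := by omega
        rw [this]
  have nonneg : ∀ h : ℕ, h < g → 0 ≤ w (bs h) := by
    intro h hh
    have h1 := mono h 0 (Nat.zero_le _) hh
    rwa [bs_zero, H.w0] at h1
  obtain ⟨t, B, hB, rfl⟩ := exists_lo g hg1
  have hvr := vl_range t
  have ht : t ∉ B := fun h => lt_irrefl _ (hB t h)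
  rw [bs_split hB, bs_pred hB]
  have hpow : 0 < 2 ^ t := by positivity
  by_cases hne : B = ∅
  · subst hne
    rw [vl_empty, add_zero] at hg ih mono nonneg hg1 ⊢
    have hins : insert t (∅ : Finset ℕ) = {t} := rfl
    rw [hins, Finset.union_empty]
    rcases Nat.eq_zero_or_pos t with rfl | htpos
    · rw [H.w1]
      simp [H.w0]
    · have h2t : 2 ≤ 2 ^ t := by
        calc 2 = 2 ^ 1 := by norm_num
          _ ≤ 2 ^ t := Nat.pow_le_pow_right (by norm_num) htpos
      have h1 := H.ws t htpos hg
      have h2 := ih (2 ^ t - 1) (by omega) (by omega) (by omega)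
      have h3 : bs (2 ^ t - 1) = range t := by
        rw [← bs_vl (range t)]; congr 1; omega
      rw [h3] at h2
      rw [h1]
      refine ⟨h2.1, le_rfl, ?_, ?_, ?_⟩
      · simp
      · intro _
        simp only [Finset.card_singleton, pow_one]
        linarith [h2.1]
      · simp
  · have hvB : 0 < vl B := vl_pos (Finset.nonempty_iff_ne_empty.2 hne)
    have hbs' : bs (2 ^ t + vl B - 1) = range t ∪ B := bs_pred hB
    set M := w (range t ∪ B) with hM
    have hM1 : 1 ≤ M := by
      have h1 := (ih (2 ^ t + vl B - 1) (by omega) (by omega) (by omega)).1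
      rwa [hbs'] at h1
    have h0 := H.wB t B hB hne hg
    rw [← Finset.add_sum_erase _ _ (Finset.empty_mem_powerset B)] at h0
    simp only [Finset.card_empty, pow_zero, one_mul, Finset.sdiff_empty] at h0
    rw [← hM] at h0
    -- bounds for the terms
    have hs : ∀ A ⊆ B, w (insert t B \ A) = w (bs (2 ^ t + vl B - vl A)) ∧
        w ((range t ∪ B) \ A) = w (bs (2 ^ t + vl B - 1 - vl A)) := by
      intro A hA
      have h1 := vl_sdiff (hA.trans (Finset.subset_insert t B))
      have h2 := vl_sdiff (hA.trans (Finset.subset_union_right (s₁ := range t)))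
      rw [vl_insert ht] at h1
      rw [vl_union (disj_range hB)] at h2
      constructor
      · rw [← bs_vl (insert t B \ A)]; congr 2; omega
      · rw [← bs_vl ((range t ∪ B) \ A)]; congr 2; omega
    have hvA : ∀ A ⊆ B, A ≠ ∅ → 0 < vl A ∧ vl A ≤ vl B := by
      intro A hA hA0
      exact ⟨vl_pos (Finset.nonempty_iff_ne_empty.2 hA0), vl_mono hA⟩
    have hy0 : ∀ A ⊆ B, A ≠ ∅ → 0 ≤ w (insert t B \ A) + w ((range t ∪ B) \ A) := by
      intro A hA hA0
      obtain ⟨h1, h2⟩ := hs A hA
      obtain ⟨h3, h4⟩ := hvA A hA hA0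
      rw [h1, h2]
      exact add_nonneg (nonneg _ (by omega)) (nonneg _ (by omega))
    have hy2 : ∀ A ⊆ B, A ≠ ∅ → w (insert t B \ A) + w ((range t ∪ B) \ A) ≤ 2 * M := by
      intro A hA hA0
      obtain ⟨h1, h2⟩ := hs A hA
      obtain ⟨h3, h4⟩ := hvA A hA hA0
      rw [h1, h2, hM, ← hbs']
      have h5 := mono (2 ^ t + vl B - 1) (2 ^ t + vl B - vl A) (by omega) (by omega)
      have h6 := mono (2 ^ t + vl B - 1) (2 ^ t + vl B - 1 - vl A) (by omega) (by omega)
      linarith
    have hy1 : ∀ A ⊆ B, A ≠ ∅ → Even #A →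
        w (insert t B \ A) + w ((range t ∪ B) \ A) ≤ M := by
      intro A hA hA0 hev
      obtain ⟨h1, h2⟩ := hs A hA
      obtain ⟨h3, h4⟩ := hvA A hA hA0
      have hA2 : 2 ≤ #A := by
        have h5 : #A ≠ 0 := by rwa [Ne, Finset.card_eq_zero]
        obtain ⟨k, hk⟩ := hev
        omega
      have key : 2 * w (bs (2 ^ t + vl B - vl A)) ≤ w (bs (2 ^ t + vl B - 1)) := by
        by_cases hB3 : 3 ≤ #B
        · obtain ⟨i, hi⟩ := Finset.nonempty_iff_ne_empty.2 hA0
          have h5 : 0 < vl (A.erase i) := by
            apply vl_pos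
            rw [← Finset.card_pos, Finset.card_erase_of_mem hi]
            omega
          have h6 : vl A = 2 ^ i + vl (A.erase i) := by
            rw [← vl_insert (Finset.notMem_erase i A), Finset.insert_erase hi]
          have h7 : 2 ^ i ≤ vl B := two_pow_le_vl (hA hi)
          have h8 : bs (2 ^ t + vl B - 2 ^ i) = insert t (B.erase i) := by
            rw [← bs_vl (insert t (B.erase i)), vl_insert (fun h => ht (Finset.mem_of_mem_erase h))]
            congr 1
            have : vl B = 2 ^ i + vl (B.erase i) := by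
              rw [← vl_insert (Finset.notMem_erase i B), Finset.insert_erase (hA hi)]
            omega
          have h9 : #(bs (2 ^ t + vl B - 2 ^ i)) = #B := by
            rw [h8, Finset.card_insert_of_notMem (fun h => ht (Finset.mem_of_mem_erase h)),
              Finset.card_erase_of_mem (hA hi)]
            have := Finset.card_pos.2 ⟨i, hA hi⟩
            omega
          have hi2 : 1 ≤ 2 ^ i := Nat.one_le_two_pow
          have h10 := (ih (2 ^ t + vl B - 2 ^ i) (by omega) (by omega) (by omega)).2.2.1
            (by omega)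
          have h11 := mono (2 ^ t + vl B - 2 ^ i - 1) (2 ^ t + vl B - vl A) (by omega) (by omega)
          have h12 := mono (2 ^ t + vl B - 1) (2 ^ t + vl B - 2 ^ i) (by omega) (by omega)
          have h13 := nonneg (2 ^ t + vl B - 2 ^ i - 1) (by omega)
          have h14 : (2 : ℤ) ≤ 2 ^ (#(bs (2 ^ t + vl B - 2 ^ i)) - 2) := by
            calc (2 : ℤ) = 2 ^ 1 := by norm_num
              _ ≤ _ := pow_le_pow_right₀ (by norm_num) (by omega)
          nlinarith
        · have hcard : #A ≤ #B := Finset.card_le_card hA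
          have hAB : A = B := Finset.eq_of_subset_of_card_le hA (by omega)
          have h5 : 2 ^ t + vl B - vl A = 2 ^ t := by rw [hAB]; omega
          rw [h5]
          -- the number 3 * 2 ^ t
          have hB1 : ∀ i ∈ ({t + 1} : Finset ℕ), t < i := by simp
          have hv1 : vl {t + 1} = 2 ^ (t + 1) := by simp [vl]
          have h6 : 2 ^ t + vl {t + 1} < 2 ^ t + vl B := by
            have h7 : 1 < #B := by omega
            obtain ⟨i, hi, j, hj, hij⟩ := Finset.one_lt_card.1 h7
            have h8 : vl {i, j} ≤ vl B := vl_mono (by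
              intro x hx
              simp only [Finset.mem_insert, Finset.mem_singleton] at hx
              rcases hx with rfl | rfl <;> assumption)
            have h9 : vl {i, j} = 2 ^ i + 2 ^ j := by
              rw [vl_insert (by simpa using hij)]; simp [vl]
            have h10 : 2 ^ (t + 1) ≤ 2 ^ i := Nat.pow_le_pow_right (by norm_num) (hB i hi)
            have h11 : 1 ≤ 2 ^ j := Nat.one_le_two_pow
            omega
          have h7 := H.wB t {t + 1} hB1 (by simp) (by omega)
          have h8 : ({t + 1} : Finset ℕ).powerset = {∅, {t + 1}} := by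
            ext x; simp [Finset.subset_singleton_iff]
          rw [h8, Finset.sum_pair (by simp)] at h7
          have h9 : insert t {t + 1} \ {t + 1} = ({t} : Finset ℕ) := by
            ext x; simp only [Finset.mem_sdiff, Finset.mem_insert, Finset.mem_singleton]; omega
          have h10 : (range t ∪ {t + 1}) \ {t + 1} = range t := by
            ext x
            simp only [Finset.mem_sdiff, Finset.mem_union, Finset.mem_singleton, Finset.mem_range]
            omega
          simp only [Finset.card_empty, pow_zero, one_mul, Finset.sdiff_empty,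
            Finset.card_singleton, pow_one, h9, h10] at h7
          have h11 : bs (2 ^ t) = {t} := by
            have := bs_split (t := t) (B := ∅) (by simp)
            rw [vl_empty, add_zero] at this
            rw [this]; rfl
          have h12 : bs (2 ^ t - 1) = range t := by
            rw [← bs_vl (range t)]; congr 1; omega
          have h13 : insert t {t + 1} = bs (2 ^ t + vl {t + 1}) := (bs_split hB1).symm
          have h14 : range t ∪ {t + 1} = bs (2 ^ t + vl {t + 1} - 1) := (bs_pred hB1).symm
          rw [h13, h14, ← h11, ← h12] at h7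
          have hp1 : 1 ≤ 2 ^ (t + 1) := Nat.one_le_two_pow
          have h15 := mono (2 ^ t + vl {t + 1} - 1) (2 ^ t) (by omega) (by omega)
          have h16 := nonneg (2 ^ t - 1) (by omega)
          have h17 := mono (2 ^ t + vl B - 1) (2 ^ t + vl {t + 1}) (by omega) (by omega)
          linarith
      have h5 := mono (2 ^ t + vl B - vl A) (2 ^ t + vl B - 1 - vl A) (by omega) (by omega)
      rw [h1, h2, hM, ← hbs']
      linarith
    -- count
    have hc1 : ∑ A ∈ B.powerset.erase ∅, (1 : ℤ) = 2 ^ #B - 1 := by
      rw [Finset.sum_const, nsmul_eq_mul, mul_one,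
        Finset.card_erase_of_mem (Finset.empty_mem_powerset B), Finset.card_powerset,
        Nat.cast_sub Nat.one_le_two_pow]
      push_cast
      ring
    have hc2 : ∑ A ∈ B.powerset.erase ∅, (-1 : ℤ) ^ #A = -1 := by
      have h3 : ∑ A ∈ B.powerset, (-1 : ℤ) ^ #A = 0 :=
        Finset.sum_powerset_neg_one_pow_card_of_nonempty (Finset.nonempty_iff_ne_empty.2 hne)
      rw [← Finset.add_sum_erase _ _ (Finset.empty_mem_powerset B)] at h3
      simp only [Finset.card_empty, pow_zero] at h3
      linarith
    have hlow : ∑ A ∈ B.powerset.erase ∅,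
        (2 * ((-1) ^ #A * (w (insert t B \ A) + w ((range t ∪ B) \ A)))) ≤
        ∑ A ∈ B.powerset.erase ∅, (M * (1 + (-1) ^ #A)) := by
      refine Finset.sum_le_sum fun A hA => ?_
      rw [Finset.mem_erase, Finset.mem_powerset] at hA
      rcases Nat.even_or_odd #A with h1 | h1
      · rw [h1.neg_one_pow]
        have := hy1 A hA.2 hA.1 h1
        linarith
      · rw [h1.neg_one_pow]
        have := hy0 A hA.2 hA.1
        linarith
    have hupp : ∑ A ∈ B.powerset.erase ∅, (-(2 * M) * (1 - (-1) ^ #A)) ≤
        ∑ A ∈ B.powerset.erase ∅,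
        (2 * ((-1) ^ #A * (w (insert t B \ A) + w ((range t ∪ B) \ A)))) := by
      refine Finset.sum_le_sum fun A hA => ?_
      rw [Finset.mem_erase, Finset.mem_powerset] at hA
      rcases Nat.even_or_odd #A with h1 | h1
      · rw [h1.neg_one_pow]
        have := hy0 A hA.2 hA.1
        linarith
      · rw [h1.neg_one_pow]
        have := hy2 A hA.2 hA.1
        linarith
    rw [← Finset.mul_sum, ← Finset.mul_sum, Finset.sum_add_distrib, hc1, hc2] at hlow
    rw [← Finset.mul_sum, ← Finset.mul_sum, Finset.sum_sub_distrib, hc1, hc2] at hupp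
    have hbc : #(insert t B) = #B + 1 := Finset.card_insert_of_notMem ht
    have hb1 : 1 ≤ #B := Finset.card_pos.2 (Finset.nonempty_iff_ne_empty.2 hne)
    obtain ⟨b, hb⟩ : ∃ b, #B = b + 1 := ⟨#B - 1, by omega⟩
    rw [hbc, hb]
    rw [hb] at hlow hupp h0
    have e1 : b + 1 + 1 - 2 = b := by omega
    rw [e1]
    have e2 : (1 : ℤ) ≤ 2 ^ b := one_le_pow₀ (by norm_num)
    have hmain : (2 : ℤ) ^ b * M ≤ w (insert t B) := by
      rw [pow_succ] at h0 hlow
      nlinarith
    refine ⟨?_, ?_, fun _ => hmain, fun _ => ?_, fun hk4 => ?_⟩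
    · nlinarith
    · nlinarith
    · rw [pow_succ] at h0 hupp
      rw [pow_succ, pow_succ]
      nlinarith
    · have hB3 : 3 ≤ #B := by omega
      have hy3 : ∀ A ⊆ B, A ≠ ∅ → Even #A →
          2 ^ b * (w (insert t B \ A) + w ((range t ∪ B) \ A)) ≤ 4 * M := by
        intro A hA hA0 hev
        obtain ⟨h1, h2⟩ := hs A hA
        obtain ⟨h3, h4⟩ := hvA A hA hA0
        have hA2 : 2 ≤ #A := by
          have h5 : #A ≠ 0 := by rwa [Ne, Finset.card_eq_zero]
          obtain ⟨k, hk⟩ := hev
          omega
        have key : 2 ^ (b - 1) * w (bs (2 ^ t + vl B - vl A)) ≤ w (bs (2 ^ t + vl B - 1)) := by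
          obtain ⟨i, hi⟩ := Finset.nonempty_iff_ne_empty.2 hA0
          have h5 : 0 < vl (A.erase i) := by
            apply vl_pos
            rw [← Finset.card_pos, Finset.card_erase_of_mem hi]
            omega
          have h6 : vl A = 2 ^ i + vl (A.erase i) := by
            rw [← vl_insert (Finset.notMem_erase i A), Finset.insert_erase hi]
          have h7 : 2 ^ i ≤ vl B := two_pow_le_vl (hA hi)
          have h8 : bs (2 ^ t + vl B - 2 ^ i) = insert t (B.erase i) := by
            rw [← bs_vl (insert t (B.erase i)), vl_insert (fun h => ht (Finset.mem_of_mem_erase h))]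
            congr 1
            have : vl B = 2 ^ i + vl (B.erase i) := by
              rw [← vl_insert (Finset.notMem_erase i B), Finset.insert_erase (hA hi)]
            omega
          have h9 : #(bs (2 ^ t + vl B - 2 ^ i)) = #B := by
            rw [h8, Finset.card_insert_of_notMem (fun h => ht (Finset.mem_of_mem_erase h)),
              Finset.card_erase_of_mem (hA hi)]
            have := Finset.card_pos.2 ⟨i, hA hi⟩
            omega
          have hi2 : 1 ≤ 2 ^ i := Nat.one_le_two_pow
          have h10 := (ih (2 ^ t + vl B - 2 ^ i) (by omega) (by omega) (by omega)).2.2.1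
            (by omega)
          have h11 := mono (2 ^ t + vl B - 2 ^ i - 1) (2 ^ t + vl B - vl A) (by omega) (by omega)
          have h12 := mono (2 ^ t + vl B - 1) (2 ^ t + vl B - 2 ^ i) (by omega) (by omega)
          have h13 : #(bs (2 ^ t + vl B - 2 ^ i)) - 2 = b - 1 := by omega
          rw [h13] at h10
          have h14 : (0 : ℤ) ≤ 2 ^ (b - 1) := by positivity
          exact (mul_le_mul_of_nonneg_left h11 h14).trans (h10.trans h12)
        have h5 := mono (2 ^ t + vl B - vl A) (2 ^ t + vl B - 1 - vl A) (by omega) (by omega)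
        rw [h1, h2, hM, ← hbs']
        have h6 : (2 : ℤ) ^ b = 2 * 2 ^ (b - 1) := by
          obtain ⟨c, rfl⟩ : ∃ c, b = c + 1 := ⟨b - 1, by omega⟩
          rw [Nat.add_sub_cancel, pow_succ]; ring
        have h7 : (0 : ℤ) ≤ 2 ^ (b - 1) := by positivity
        have h8 := mul_le_mul_of_nonneg_left h5 h7
        rw [h6]
        linarith
      have hlow2 : ∑ A ∈ B.powerset.erase ∅,
          (2 ^ b * ((-1) ^ #A * (w (insert t B \ A) + w ((range t ∪ B) \ A)))) ≤
          ∑ A ∈ B.powerset.erase ∅, (2 * M * (1 + (-1) ^ #A)) := by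
        refine Finset.sum_le_sum fun A hA => ?_
        rw [Finset.mem_erase, Finset.mem_powerset] at hA
        rcases Nat.even_or_odd #A with h1 | h1
        · rw [h1.neg_one_pow]
          have := hy3 A hA.2 hA.1 h1
          linarith
        · rw [h1.neg_one_pow]
          have h2 := hy0 A hA.2 hA.1
          have h3 : (0 : ℤ) ≤ 2 ^ b := by positivity
          have h4 := mul_nonneg h3 h2
          linarith
      rw [← Finset.mul_sum, ← Finset.mul_sum, Finset.sum_add_distrib, hc1, hc2, hb, pow_succ]
        at hlow2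
      have e3 : b + 1 + 1 - 1 = b + 1 := by omega
      rw [e3]
      set Sg := ∑ A ∈ B.powerset.erase ∅, (-1 : ℤ) ^ #A *
        (w (insert t B \ A) + w ((range t ∪ B) \ A)) with hSg
      have e4 : (0 : ℤ) < 2 ^ b := by positivity
      have e5 : Sg ≤ 4 * M := by
        by_contra hcon
        push Not at hcon
        have e6 := mul_lt_mul_of_pos_left hcon e4
        linarith
      linarith

end Pool.Agent.TH473.Det
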