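import Mathlib

set_option autoImplicit false

/-!
From integer matrices with a few rows of small entries to zero-one matrices.
-/

namespace Pool.Agent.TH473.Det

open Finset Matrix

/-- `d` is the determinant of a zero-one matrix of order `N`. -/
def HasDet (N : ℕ) (d : ℤ) : Prop :=
  ∃ (ι : Type) (_ : Fintype ι) (_ : DecidableEq ι), Fintype.card ι = N ∧
    ∃ E : Matrix ι ι ℤ, (∀ i j, E i j = 0 ∨ E i j = 1) ∧ E.det = d

theorem HasDet.pad {N : ℕ} {d : ℤ} (h : HasDet N d) (k : ℕ) : HasDet (N + k) d := by
  obtain ⟨ι, hι, hd, hcard, E, hE, hdet⟩ := h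
  refine ⟨ι ⊕ Fin k, inferInstance, inferInstance, by simp [hcard],
    Matrix.fromBlocks E 0 0 1, ?_, ?_⟩
  · intro i j
    rcases i with i | i <;> rcases j with j | j
    · exact hE i j
    · exact Or.inl rfl
    · exact Or.inl rfl
    · simp only [Matrix.fromBlocks_apply₂₂, Matrix.one_apply]
      split_ifs
      · exact Or.inr rfl
      · exact Or.inl rfl
  · rw [Matrix.det_fromBlocks_zero₁₂, hdet, Matrix.det_one, mul_one]

/-- The vector `y` has negabinary expansions with `s + 1` digits. -/
def Nega {ι : Type} : ℕ → (ι → ℤ) → Prop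
  | 0, y => ∀ i, y i = 0 ∨ y i = 1
  | s + 1, y => ∃ b c : ι → ℤ, (∀ i, b i = 0 ∨ b i = 1) ∧ Nega s c ∧ ∀ i, y i = b i - 2 * c i

theorem nega_of_bound {ι : Type} (s : ℕ) (y : ι → ℤ) (h : ∀ i, |y i| ≤ 2 ^ s) :
    Nega (s + 1) y := by
  induction s generalizing y with
  | zero =>
    refine ⟨fun i => y i % 2, fun i => (y i % 2 - y i) / 2, fun i => ?_, fun i => ?_, fun i => ?_⟩
    · show y i % 2 = 0 ∨ y i % 2 = 1
      omega
    · have := abs_le.1 (h i)
      simp only [pow_zero] at this
      show (y i % 2 - y i) / 2 = 0 ∨ (y i % 2 - y i) / 2 = 1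
      omega
    · show y i = y i % 2 - 2 * ((y i % 2 - y i) / 2)
      omega
  | succ s ih =>
    refine ⟨fun i => y i % 2, fun i => (y i % 2 - y i) / 2, fun i => ?_, ih _ fun i => ?_,
      fun i => ?_⟩
    · show y i % 2 = 0 ∨ y i % 2 = 1
      omega
    · have := abs_le.1 (h i)
      rw [pow_succ] at this
      rw [abs_le]
      constructor <;> omega
    · show y i = y i % 2 - 2 * ((y i % 2 - y i) / 2)
      omega

theorem nega_ext {ι κ : Type} (s : ℕ) (y : ι → ℤ) (h : Nega s y) (e : κ → ℤ)
    (he : ∀ i, e i = 0 ∨ e i = 1) : Nega s (Sum.elim y e) := by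
  induction s generalizing y e with
  | zero =>
    intro i
    rcases i with i | i
    · exact h i
    · exact he i
  | succ s ih =>
    obtain ⟨b, c, hb, hc, hy⟩ := h
    refine ⟨Sum.elim b e, Sum.elim c (fun _ => 0), ?_, ih c hc (fun _ => 0) (fun _ => Or.inl rfl), ?_⟩
    · intro i
      rcases i with i | i
      · exact hb i
      · exact he i
    · intro i
      rcases i with i | i
      · exact hy i
      · simp

/-- The matrix `Z` of the lifting step. -/
def Zm : Matrix (Fin 3) (Fin 3) ℤ := !![1, 0, 0; 1, 1, 0; 0, 1, 1]

theorem Zm_det : Zm.det = 1 := by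
  simp [Zm, Matrix.det_fin_three]

/-- Lifting rows one binary digit at a time. -/
theorem lift (n : ℕ) {ι : Type} [Fintype ι] [DecidableEq ι] (K : Matrix ι ι ℤ) (c : ι → ℕ)
    (hK : ∀ i, Nega (c i) (K i)) (hn : ∑ i, c i = n) :
    HasDet (Fintype.card ι + 3 * n) K.det := by
  induction n generalizing ι with
  | zero =>
    have h0 : ∀ i, c i = 0 := by
      intro i
      exact (Finset.sum_eq_zero_iff.1 hn) i (Finset.mem_univ _)
    refine ⟨ι, inferInstance, inferInstance, by simp, K, fun i j => ?_, rfl⟩
    have := hK i
    rw [h0 i] at this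
    exact this j
  | succ n ih =>
    obtain ⟨i, hi⟩ : ∃ i, c i ≠ 0 := by
      by_contra hcon
      push Not at hcon
      simp [hcon] at hn
    obtain ⟨s, hs⟩ : ∃ s, c i = s + 1 := ⟨c i - 1, by omega⟩
    have hKi := hK i
    rw [hs] at hKi
    obtain ⟨b, d, hb, hd, hy⟩ := hKi
    -- the new matrix
    let F : Matrix ι (Fin 3) ℤ := Matrix.of fun j k => if j = i then (![1, 0, 1] : Fin 3 → ℤ) k else 0
    let G : Matrix (Fin 3) ι ℤ := Matrix.of fun k j => if k = 0 then d j else 0
    let U : Matrix (Fin 3) ι ℤ := Matrix.of fun k j => (![1, -1, 1] : Fin 3 → ℤ) k * d j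
    let K' : Matrix (ι ⊕ Fin 3) (ι ⊕ Fin 3) ℤ := Matrix.fromBlocks (K.updateRow i b) F G Zm
    let c' : ι ⊕ Fin 3 → ℕ := Sum.elim (fun j => if j = i then 0 else c j)
      (fun k => if k = 0 then s else 0)
    have h1 : K'.det = K.det := by
      have h2 : K' * Matrix.fromBlocks 1 0 (-U) 1 = Matrix.fromBlocks K F 0 Zm := by
        rw [Matrix.fromBlocks_multiply]
        congr 1
        · ext j k
          simp only [Matrix.mul_one, Matrix.add_apply, Matrix.mul_apply, Matrix.neg_apply]
          by_cases hj : j = i
          · subst hj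
            simp [F, U, Fin.sum_univ_three, hy]
            ring
          · simp [F, U, hj]
        · simp
        · ext k j
          simp only [Matrix.mul_one, Matrix.add_apply, Matrix.mul_apply (M := Zm),
            Matrix.neg_apply, Fin.sum_univ_three, Matrix.zero_apply]
          fin_cases k <;> simp [G, U, Zm]
        · simp
      have h3 := congrArg Matrix.det h2
      rw [Matrix.det_mul, Matrix.det_fromBlocks_zero₁₂, Matrix.det_fromBlocks_zero₂₁,
        Zm_det] at h3
      simpa using h3
    have h2 : HasDet (Fintype.card (ι ⊕ Fin 3) + 3 * n) K'.det := by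
      apply ih K' c'
      · intro j
        rcases j with j | k
        · by_cases hj : j = i
          · subst hj
            have e1 : c' (Sum.inl j) = 0 := by simp [c']
            rw [e1]
            intro l
            rcases l with l | l
            · simpa [K'] using hb l
            · fin_cases l <;> simp [K', F]
          · have e1 : c' (Sum.inl j) = c j := by simp [c', hj]
            have e2 : K' (Sum.inl j) = Sum.elim (K j) (fun _ => 0) := by
              ext l
              rcases l with l | l
              · simp [K', Matrix.updateRow_ne hj]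
              · simp [K', F, hj]
            rw [e1, e2]
            exact nega_ext _ _ (hK j) _ fun _ => Or.inl rfl
        · by_cases hk : k = 0
          · subst hk
            have e1 : c' (Sum.inr 0) = s := by simp [c']
            have e2 : K' (Sum.inr 0) = Sum.elim d (![1, 0, 0] : Fin 3 → ℤ) := by
              ext l
              rcases l with l | l
              · simp [K', G]
              · fin_cases l <;> simp [K', Zm]
            rw [e1, e2]
            refine nega_ext _ _ hd _ fun l => ?_
            fin_cases l <;> simp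
          · have e1 : c' (Sum.inr k) = 0 := by simp [c', hk]
            rw [e1]
            intro l
            rcases l with l | l
            · simp [K', G, hk]
            · fin_cases k <;> fin_cases l <;> simp [K', Zm]
      · have e3 : ∑ j, c' j = (∑ j, if j = i then 0 else c j) + s := by
          rw [Fintype.sum_sum_type]
          simp [c']
        have e4 : ∑ j, c j = c i + ∑ j, (if j = i then 0 else c j) := by
          rw [← Finset.add_sum_erase _ _ (Finset.mem_univ i)]
          congr 1
          rw [← Finset.sum_erase (s := Finset.univ) (a := i)]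
          · refine Finset.sum_congr rfl fun j hj => ?_
            rw [if_neg (Finset.mem_erase.1 hj).1]
          · simp
        omega
    rw [h1] at h2
    have e5 : Fintype.card (ι ⊕ Fin 3) + 3 * n = Fintype.card ι + 3 * (n + 1) := by
      simp only [Fintype.card_sum, Fintype.card_fin]; ring
    rwa [e5] at h2

end Pool.Agent.TH473.Det
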