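import Pool.Agent.TH473.Det.Growth
import Pool.Agent.TH473.Det.Lift

set_option autoImplicit false

/-!
The determinants obtained from one block.
-/

namespace Pool.Agent.TH473.Det

open Finset Matrix

theorem block_sol (N : ℕ) (hN : 2 ≤ N) : ∃ x : Fin N → ℤ,
    (∀ g : Fin N, ∑ a, Rm N g a * x a = if (g : ℕ) = 1 then 1 else 0) ∧
    Rel N (fun s => ∑ a : Fin N, pp s (bs a) * x a) := by
  let e : Fin N → ℤ := fun g => if (g : ℕ) = 1 then 1 else 0
  let x : Fin N → ℤ := (Rm N)⁻¹.mulVec e
  have hx : (Rm N).mulVec x = e := by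
    rw [Matrix.mulVec_mulVec, Matrix.mul_nonsing_inv _ (Rm_unit N), Matrix.one_mulVec]
  have hx' : ∀ g : Fin N, ∑ a, Rm N g a * x a = if (g : ℕ) = 1 then 1 else 0 := by
    intro g
    exact congrFun hx g
  have hrow : ∀ g : ℕ, g < N → ∑ a : Fin N, row g (bs a) * x a =
      if g = 1 then 1 else 0 := fun g hg => hx' ⟨g, hg⟩
  refine ⟨x, hx', ?_, ?_, ?_, ?_⟩
  · simp [pp_empty]
  · have h2 := hrow 1 (by omega)
    have h3 : ∀ a, row 1 a = pp {0} a := by
      intro a
      have := row_single 0 a
      rw [pow_zero, Finset.range_zero, pp_empty, sub_zero] at this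
      exact this
    simpa [h3] using h2
  · intro t ht htm
    have h2 := hrow (2 ^ t) htm
    have h3 : 2 ^ t ≠ 1 := by
      have : 1 < 2 ^ t := Nat.one_lt_two_pow (by omega)
      omega
    rw [if_neg h3] at h2
    simp only [row_single, sub_mul, Finset.sum_sub_distrib] at h2
    linarith
  · intro t B hB hne hlt
    have h1 := hrow _ hlt
    have h2 : 2 ^ t + vl B ≠ 1 := by
      have h3 := vl_pos (Finset.nonempty_iff_ne_empty.2 hne)
      have : 0 < 2 ^ t := by positivity
      omega
    rw [if_neg h2] at h1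
    have h3 : ∑ A ∈ B.powerset, (-1 : ℤ) ^ #A * (∑ a : Fin N, pp (insert t B \ A) (bs a) * x a +
        ∑ a : Fin N, pp ((range t ∪ B) \ A) (bs a) * x a) =
        ∑ a : Fin N, (∑ A ∈ B.powerset, (-1 : ℤ) ^ #A * (pp (insert t B \ A) (bs a) +
          pp ((range t ∪ B) \ A) (bs a))) * x a := by
      simp only [Finset.sum_mul, ← Finset.sum_add_distrib, Finset.mul_sum]
      rw [Finset.sum_comm]
      refine Finset.sum_congr rfl fun a _ => Finset.sum_congr rfl fun A _ => ?_
      ring
    rw [h3]
    simp only [key2 hB hne]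
    have h4 : ∀ a : Fin N, 2 ^ #B * (pp (range t ∪ B) (bs a) - row (2 ^ t + vl B) (bs a)) * x a =
        2 ^ #B * (pp (range t ∪ B) (bs a) * x a) -
        2 ^ #B * (row (2 ^ t + vl B) (bs a) * x a) := fun a => by ring
    simp only [h4, Finset.sum_sub_distrib, ← Finset.mul_sum, h1]
    ring

theorem sum_half_pow (m : ℕ) : ∑ g ∈ range (2 ^ m), (1 / 2 : ℝ) ^ #(bs g) = (3 / 2) ^ m := by
  induction m with
  | zero => simp [bs_zero]
  | succ m ih =>
    have h1 : 2 ^ (m + 1) = 2 ^ m + 2 ^ m := by rw [pow_succ]; ring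
    rw [h1, Finset.sum_range_add]
    have h2 : ∀ g ∈ range (2 ^ m), (1 / 2 : ℝ) ^ #(bs (2 ^ m + g)) = (1 / 2) ^ #(bs g) * (1 / 2) := by
      intro g hg
      rw [Finset.mem_range] at hg
      rw [bs_add_pow hg, Finset.card_insert_of_notMem, pow_succ]
      intro h
      have := bs_subset_range hg h
      simp at this
    rw [Finset.sum_congr rfl h2, ← Finset.sum_mul, ih, pow_succ]
    ring

theorem card_bs_pos {g : ℕ} (hg : 1 ≤ g) : 1 ≤ #(bs g) := by
  rw [Nat.one_le_iff_ne_zero, Ne, Finset.card_eq_zero]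
  intro h
  have := vl_bs g
  rw [h, vl_empty] at this
  omega

theorem ratio_bound (k : ℕ) (hk : 1 ≤ k) (u v : ℝ) (hu : 1 ≤ u) (h1 : u ≤ v)
    (h2 : 2 ≤ k → 2 ^ (k - 2) * u ≤ v) (h4 : 4 ≤ k → (2 ^ (k - 1) - 5) * u ≤ v) :
    2 ^ k * u ≤ v * 2 * Real.exp (16 * (1 / 2) ^ k) := by
  have hv : 0 ≤ v := by linarith
  rcases Nat.lt_or_ge k 5 with h5 | h5
  · interval_cases k
    · have := Real.one_le_exp (show (0 : ℝ) ≤ 16 * (1 / 2) ^ 1 by norm_num)
      nlinarith
    · have h6 := Real.add_one_le_exp (16 * (1 / 2 : ℝ) ^ 2)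
      norm_num at h6 ⊢
      nlinarith
    · have h6 := Real.add_one_le_exp (16 * (1 / 2 : ℝ) ^ 3)
      have h7 := h2 (by norm_num)
      norm_num at h6 h7 ⊢
      nlinarith
    · have h6 := Real.exp_one_gt_d9
      have h7 := h4 (by norm_num)
      norm_num at h6 h7 ⊢
      nlinarith
  · have h6 := Real.add_one_le_exp (16 * (1 / 2 : ℝ) ^ k)
    have h7 := h4 (by omega)
    obtain ⟨j, rfl⟩ : ∃ j, k = j + 5 := ⟨k - 5, by omega⟩
    have h8 : j + 5 - 1 = j + 4 := by omega
    rw [h8] at h7
    have h9 : (1 : ℝ) ≤ 2 ^ j := one_le_pow₀ (by norm_num)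
    have h10 : (1 / 2 : ℝ) ^ (j + 5) * 2 ^ (j + 5) = 1 := by
      rw [← mul_pow]; norm_num
    have h11 : (2 : ℝ) ^ (j + 5) = 32 * 2 ^ j := by rw [pow_add]; ring
    have h12 : (2 : ℝ) ^ (j + 4) = 16 * 2 ^ j := by rw [pow_add]; ring
    rw [h12] at h7
    rw [h11] at h10 ⊢
    set y := (1 / 2 : ℝ) ^ (j + 5) with hy
    set z := (2 : ℝ) ^ j with hz
    have hy0 : 0 < y := by positivity
    -- (16 z - 5)(1 + 16 y) >= 16 z
    have h13 : 16 * z ≤ (16 * z - 5) * (16 * y + 1) := by
      have h14 : y ≤ 1 / 32 := by nlinarith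
      nlinarith
    have h15 : (16 * z - 5) * u * (16 * y + 1) ≤ v * Real.exp (16 * y) := by
      have h16 : 0 ≤ (16 * z - 5) * u := by nlinarith
      calc (16 * z - 5) * u * (16 * y + 1) ≤ (16 * z - 5) * u * Real.exp (16 * y) := by gcongr
        _ ≤ v * Real.exp (16 * y) := by
          have := Real.exp_pos (16 * y)
          gcongr
    have h17 : 16 * z * u ≤ (16 * z - 5) * (16 * y + 1) * u := by
      have : 0 ≤ u := by linarith
      gcongr
    linarith

theorem prod_growth {N : ℕ} {w : Finset ℕ → ℤ} (H : Rel N w) (n : ℕ) (hn1 : 1 ≤ n)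
    (hn : n < N) : (2 : ℝ) ^ (∑ g ∈ range (n + 1), #(bs g)) ≤
      w (bs n) * 2 ^ n * Real.exp (16 * ∑ g ∈ range (n + 1), (1 / 2) ^ #(bs g)) := by
  induction n, hn1 using Nat.le_induction with
  | base =>
    have h1 : bs 1 = {0} := by
      have := bs_vl {0}
      simpa [vl] using this
    rw [Finset.sum_range_succ, Finset.sum_range_one, Finset.sum_range_succ, Finset.sum_range_one,
      bs_zero, h1, H.w1]
    have := Real.one_le_exp (show (0 : ℝ) ≤ 16 * ((1 / 2) ^ #(∅ : Finset ℕ) +
      (1 / 2) ^ #({0} : Finset ℕ)) by positivity)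
    simp only [Finset.card_empty, Finset.card_singleton, zero_add, pow_one, Int.cast_one,
      one_mul] at this ⊢
    linarith
  | succ n hn1 ih =>
    have ih' := ih (by omega)
    obtain ⟨h1, h2, h3, -, h5⟩ := growth H (n + 1) (by omega) hn
    have h4 := (growth H n hn1 (by omega)).1
    rw [Nat.add_sub_cancel] at h2 h3 h5
    have h6 := ratio_bound #(bs (n + 1)) (card_bs_pos (by omega)) (w (bs n) : ℝ)
      (w (bs (n + 1)) : ℝ) (by exact_mod_cast h4) (by exact_mod_cast h2)
      (fun h => by exact_mod_cast h3 h) (fun h => by exact_mod_cast h5 h)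
    rw [Finset.sum_range_succ, pow_add, Finset.sum_range_succ _ (n + 1), mul_add, Real.exp_add]
    set S := ∑ g ∈ range (n + 1), (1 / 2 : ℝ) ^ #(bs g) with hS
    calc (2 : ℝ) ^ (∑ g ∈ range (n + 1), #(bs g)) * 2 ^ #(bs (n + 1))
        ≤ (w (bs n) * 2 ^ n * Real.exp (16 * S)) * 2 ^ #(bs (n + 1)) := by gcongr
      _ = (2 ^ #(bs (n + 1)) * w (bs n)) * (2 ^ n * Real.exp (16 * S)) := by ring
      _ ≤ (w (bs (n + 1)) * 2 * Real.exp (16 * (1 / 2) ^ #(bs (n + 1)))) *
          (2 ^ n * Real.exp (16 * S)) := by gcongr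
      _ = _ := by rw [pow_succ]; ring

theorem digits {N m : ℕ} {w : Finset ℕ → ℤ} (H : Rel N w) (hm : N ≤ 2 ^ m) (n : ℕ) (hn1 : 1 ≤ n)
    (hn : n < N) (q : ℤ) (hq : |q| ≤ 2 ^ m * w (bs n)) :
    ∃ d : ℕ → ℤ, (∀ g, |d g| ≤ 2 ^ m) ∧ ∑ g ∈ range (n + 1), d g * w (bs g) = q := by
  induction n, hn1 using Nat.le_induction generalizing q with
  | base =>
    have h1 : bs 1 = {0} := by
      have := bs_vl {0}
      simpa [vl] using this
    rw [h1, H.w1, mul_one] at hq
    refine ⟨fun g => if g = 1 then q else 0, fun g => ?_, ?_⟩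
    · dsimp only
      split_ifs
      · exact hq
      · simp
    · rw [Finset.sum_range_succ, Finset.sum_range_one, h1, H.w1]
      simp
  | succ n hn1 ih =>
    obtain ⟨h1, h2, -, h4, -⟩ := growth H (n + 1) (by omega) hn
    rw [Nat.add_sub_cancel] at h2 h4
    have h5 := (growth H n hn1 (by omega)).1
    have h6 := h4 (by omega)
    set W := w (bs (n + 1)) with hW
    have h7 : W ≤ 2 ^ m * w (bs n) := by
      refine h6.trans ?_
      have h8 : #(bs (n + 1)) ≤ m := by
        have := Finset.card_le_card (bs_subset_range (hn.trans_le hm))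
        rwa [Finset.card_range] at this
      have h9 : (2 : ℤ) ^ #(bs (n + 1)) ≤ 2 ^ m := pow_le_pow_right₀ (by norm_num) h8
      gcongr
    have hr0 := Int.emod_nonneg q (by omega : W ≠ 0)
    have hr1 := Int.emod_lt_of_pos q (by omega : 0 < W)
    obtain ⟨d, hd1, hd2⟩ := ih (by omega) (q % W) (by
      rw [abs_of_nonneg hr0]
      linarith)
    refine ⟨fun g => if g = n + 1 then q / W else d g, fun g => ?_, ?_⟩
    · dsimp only
      split_ifs
      · rw [abs_le] at hq ⊢
        constructor
        · rw [Int.le_ediv_iff_mul_le (by omega)]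
          linarith [hq.1]
        · have : q / W < 2 ^ m + 1 := by
            rw [Int.ediv_lt_iff_lt_mul (by omega)]
            linarith [hq.2]
          omega
      · exact hd1 g
    · rw [Finset.sum_range_succ]
      have h10 : ∀ g ∈ range (n + 1), (if g = n + 1 then q / W else d g) * w (bs g) =
          d g * w (bs g) := by
        intro g hg
        rw [Finset.mem_range] at hg
        rw [if_neg (by omega)]
      rw [Finset.sum_congr rfl h10, hd2,
        show (fun g => if g = n + 1 then q / W else d g) (n + 1) = q / W from if_pos rfl, ← hW]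
      have := Int.emod_add_mul_ediv q W
      linarith

/-- All integers up to the last functional are determinants. -/
theorem main_block (N m : ℕ) (hN : 2 ≤ N) (hm : N ≤ 2 ^ m) : ∃ W : ℤ, 1 ≤ W ∧
    (2 : ℝ) ^ (∑ g ∈ range N, #(bs g)) ≤ W * 2 ^ N * Real.exp (16 * (3 / 2) ^ m) ∧
    ∀ q : ℤ, |q| ≤ W → HasDet (N + 9 * m + 4) q := by
  obtain ⟨x, hx, hrel⟩ := block_sol N hN
  set w : Finset ℕ → ℤ := fun s => ∑ a : Fin N, pp s (bs a) * x a with hw
  set W : ℤ := w (bs (N - 1)) with hW
  have hW1 : 1 ≤ W := (growth hrel (N - 1) (by omega) (by omega)).1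
  refine ⟨W, hW1, ?_, ?_⟩
  · have h1 := prod_growth hrel (N - 1) (by omega) (by omega)
    rw [← hW, Nat.sub_add_cancel (by omega)] at h1
    refine h1.trans ?_
    have h2 : ∑ g ∈ range N, (1 / 2 : ℝ) ^ #(bs g) ≤ (3 / 2) ^ m := by
      rw [← sum_half_pow]
      exact Finset.sum_le_sum_of_subset_of_nonneg (Finset.range_mono hm)
        (fun _ _ _ => by positivity)
    have h3 : (0 : ℝ) ≤ W := by exact_mod_cast (by omega : 0 ≤ W)
    gcongr
    · norm_num
    · omega
  · intro q hq
    have hunit := Rm_unit N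
    have hdd : (Rm N).det * (Rm N).det = 1 := by
      rcases Int.isUnit_iff.1 hunit with h | h <;> rw [h] <;> norm_num
    have habs : |(Rm N).det| = 1 := by
      rcases Int.isUnit_iff.1 hunit with h | h <;> rw [h] <;> norm_num
    have h2m : (1 : ℤ) ≤ 2 ^ m := one_le_pow₀ (by norm_num)
    obtain ⟨d, hd1, hd2⟩ := digits hrel hm (N - 1) (by omega) (by omega) (-(q * (Rm N).det)) (by
      rw [← hW, abs_neg, abs_mul, habs, mul_one]
      refine hq.trans ?_
      nlinarith)
    rw [Nat.sub_add_cancel (by omega)] at hd2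
    let Y : Fin N → ℤ := fun b => ∑ g ∈ range N, d g * pp (bs g) (bs b)
    have hY : ∑ b, Y b * x b = -(q * (Rm N).det) := by
      rw [← hd2, hw]
      simp only [Y, Finset.mul_sum, Finset.sum_mul]
      rw [Finset.sum_comm]
      refine Finset.sum_congr rfl fun g _ => Finset.sum_congr rfl fun b _ => ?_
      ring
    have hYb : ∀ b, |Y b| ≤ 2 ^ (2 * m) := by
      intro b
      refine (Finset.abs_sum_le_sum_abs _ _).trans ?_
      calc ∑ g ∈ range N, |d g * pp (bs g) (bs b)| ≤ ∑ g ∈ range N, (2 : ℤ) ^ m := by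
            refine Finset.sum_le_sum fun g _ => ?_
            rcases pp_mem (bs g) (bs b) with h | h
            · rw [h]; simp
            · rw [h, mul_one]; exact hd1 g
        _ = N * 2 ^ m := by
            rw [Finset.sum_const, Finset.card_range, nsmul_eq_mul]
        _ ≤ 2 ^ m * 2 ^ m := by
            have : (N : ℤ) ≤ 2 ^ m := by exact_mod_cast hm
            gcongr
        _ = 2 ^ (2 * m) := by rw [two_mul, pow_add]
    let zc : Matrix (Fin N) Unit ℤ := Matrix.of fun g _ => if (g : ℕ) = 1 then 1 else 0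
    let Yr : Matrix Unit (Fin N) ℤ := Matrix.of fun _ b => Y b
    let xc : Matrix (Fin N) Unit ℤ := Matrix.of fun b _ => x b
    let K : Matrix (Fin N ⊕ Unit) (Fin N ⊕ Unit) ℤ := Matrix.fromBlocks (Rm N) zc Yr 0
    have hdet : K.det = q := by
      have h1 : K * Matrix.fromBlocks 1 (-xc) 0 1 =
          Matrix.fromBlocks (Rm N) 0 Yr (Matrix.of fun _ _ => q * (Rm N).det) := by
        rw [Matrix.fromBlocks_multiply]
        congr 1
        · simp
        · ext g u
          have := hx g
          simp only [Matrix.mul_neg, Matrix.mul_one, Matrix.add_apply, Matrix.neg_apply,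
            Matrix.mul_apply (M := Rm N), xc, zc, Matrix.of_apply, Matrix.zero_apply]
          rw [this]
          ring
        · simp
        · ext u u'
          simp only [Matrix.mul_neg, Matrix.mul_one, Matrix.add_apply, Matrix.neg_apply,
            Matrix.mul_apply (M := Yr), xc, Yr, Matrix.of_apply, Matrix.zero_apply]
          rw [hY]
          ring
      have h2 := congrArg Matrix.det h1
      rw [Matrix.det_mul, Matrix.det_fromBlocks_zero₂₁, Matrix.det_fromBlocks_zero₁₂,
        Matrix.det_one, Matrix.det_one, mul_one, mul_one] at h2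
      simp only [Matrix.det_unique, Matrix.of_apply] at h2
      rw [h2]
      linear_combination q * hdd
    classical
    let c : Fin N ⊕ Unit → ℕ := Sum.elim (fun g => if ∃ t : ℕ, (g : ℕ) = 2 ^ t then 1 else 0)
      (fun _ => 2 * m + 1)
    have hK : ∀ i, Nega (c i) (K i) := by
      intro i
      rcases i with g | u
      · by_cases hg : ∃ t : ℕ, (g : ℕ) = 2 ^ t
        · have e1 : c (Sum.inl g) = 0 + 1 := by simp [c, hg]
          rw [e1]
          apply nega_of_bound
          intro j
          rcases j with a | u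
          · simp only [K, Matrix.fromBlocks_apply₁₁, Rm, Matrix.of_apply]
            rcases row_small g (bs a) with h | h | h <;> simp [h]
          · simp only [K, Matrix.fromBlocks_apply₁₂, zc, Matrix.of_apply]
            split_ifs <;> simp
        · have e1 : c (Sum.inl g) = 0 := by simp [c, hg]
          rw [e1]
          intro j
          rcases j with a | u
          · simp only [K, Matrix.fromBlocks_apply₁₁, Rm, Matrix.of_apply]
            rcases Nat.eq_zero_or_pos (g : ℕ) with h0 | hpos
            · right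
              rw [h0, row_zero]
            · refine row_zero_one ?_ _
              intro hhi
              obtain ⟨t, B, hB, hgt⟩ := exists_lo (g : ℕ) hpos
              rw [hgt, hi_eq hB] at hhi
              subst hhi
              rw [vl_empty, add_zero] at hgt
              exact hg ⟨t, hgt⟩
          · simp only [K, Matrix.fromBlocks_apply₁₂, zc, Matrix.of_apply]
            split_ifs <;> simp
      · have e1 : c (Sum.inr u) = 2 * m + 1 := by simp [c]
        rw [e1]
        apply nega_of_bound
        intro j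
        rcases j with a | u'
        · exact hYb a
        · simp [K]
    have h3 := lift (∑ i, c i) K c hK rfl
    rw [hdet] at h3
    have h4 : ∑ i, c i ≤ 3 * m + 1 := by
      rw [Fintype.sum_sum_type]
      have h5 : ∑ g : Fin N, c (Sum.inl g) ≤ m := by
        simp only [c, Sum.elim_inl]
        rw [Finset.sum_ite, Finset.sum_const_zero, add_zero, Finset.sum_const, smul_eq_mul, mul_one]
        let pw : Fin m → ℕ := fun t => 2 ^ (t : ℕ)
        calc #{g : Fin N | ∃ t : ℕ, (g : ℕ) = 2 ^ t}
            = #(({g : Fin N | ∃ t : ℕ, (g : ℕ) = 2 ^ t} : Finset (Fin N)).map Fin.valEmbedding) :=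
              (Finset.card_map _).symm
          _ ≤ #(Finset.univ.image pw) := by
              apply Finset.card_le_card
              intro v hv
              rw [Finset.mem_map] at hv
              obtain ⟨g, hg, rfl⟩ := hv
              rw [Finset.mem_filter] at hg
              obtain ⟨t, ht⟩ := hg.2
              rw [Finset.mem_image]
              have htm : t < m := by
                by_contra hcon
                have : 2 ^ m ≤ 2 ^ t := Nat.pow_le_pow_right (by norm_num) (by omega)
                have := g.2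
                omega
              exact ⟨⟨t, htm⟩, Finset.mem_univ _, ht.symm⟩
          _ ≤ m := Finset.card_image_le.trans (by simp)
      have h6 : ∑ u : Unit, c (Sum.inr u) = 2 * m + 1 := by simp [c]
      omega
    have h5 := h3.pad (N + 9 * m + 4 - (Fintype.card (Fin N ⊕ Unit) + 3 * ∑ i, c i))
    rw [Nat.add_sub_cancel' ?_] at h5
    · exact h5
    · simp only [Fintype.card_sum, Fintype.card_fin, Fintype.card_unit]
      omega

end Pool.Agent.TH473.Det
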